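import Mathlib

/-!
# `k`-bend RAC drawings

The vertex `x` is drawn at the point `f x`, the edge `e` as the polygonal chain with the corners
`c e 0, c e 1, .., c e (m e)`: it has `m e ≤ k + 1` segments, that is, at most `k` bends.
-/

set_option autoImplicit false

namespace Pool.Agent.Helper7.KB

variable {V : Type*}

/-- `f`, `m`, `c` are a `k`-bend RAC drawing of `G`. -/
structure IsDrawing (k : ℕ) (G : SimpleGraph V) (f : V → ℂ) (m : Sym2 V → ℕ)
    (c : Sym2 V → ℕ → ℂ) : Prop where
  /-- different vertices are different points -/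
  inj : Function.Injective f
  /-- the chain of an edge joins its two ends -/
  ends : ∀ u v, G.Adj u v → (c s(u, v) 0 = f u ∧ c s(u, v) (m s(u, v)) = f v) ∨
    (c s(u, v) 0 = f v ∧ c s(u, v) (m s(u, v)) = f u)
  /-- at most `k` bends -/
  len : ∀ e ∈ G.edgeSet, m e ≤ k + 1
  /-- the segments of a chain are not degenerate -/
  ne : ∀ e ∈ G.edgeSet, ∀ i < m e, c e i ≠ c e (i + 1)
  /-- a chain does not meet itself: two different segments of it have a common point only if they
  are consecutive, and then only their common corner -/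
  simple : ∀ e ∈ G.edgeSet, ∀ i j z, i < j → j < m e →
    z ∈ segment ℝ (c e i) (c e (i + 1)) → z ∈ segment ℝ (c e j) (c e (j + 1)) →
      j = i + 1 ∧ z = c e j
  /-- no chain passes through a vertex other than its ends -/
  vtx : ∀ e ∈ G.edgeSet, ∀ i < m e, ∀ x, f x ∈ segment ℝ (c e i) (c e (i + 1)) → x ∈ e
  /-- a common point of the chains of two different edges is a vertex, or an interior point of two
  perpendicular segments -/
  crs : ∀ e ∈ G.edgeSet, ∀ e' ∈ G.edgeSet, e ≠ e' → ∀ i < m e, ∀ j < m e', ∀ z,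
    z ∈ segment ℝ (c e i) (c e (i + 1)) → z ∈ segment ℝ (c e' j) (c e' (j + 1)) →
      (∃ x, z = f x) ∨ (z ∈ openSegment ℝ (c e i) (c e (i + 1)) ∧
        z ∈ openSegment ℝ (c e' j) (c e' (j + 1)) ∧
        ((c e (i + 1) - c e i) * (starRingEnd ℂ) (c e' (j + 1) - c e' j)).re = 0)

/-- the class `C_k` -/
def Drawable (k : ℕ) (G : SimpleGraph V) : Prop :=
  ∃ (f : V → ℂ) (m : Sym2 V → ℕ) (c : Sym2 V → ℕ → ℂ), IsDrawing k G f m c

/-- `G` is maximal in the class `C_k` -/
def Maximal (k : ℕ) (G : SimpleGraph V) : Prop :=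
  Drawable k G ∧ ∀ u v, u ≠ v → ¬ G.Adj u v → ¬ Drawable k (G ⊔ SimpleGraph.edge u v)

/-- the least number of edges of a graph on `n` vertices which is maximal in `C_k` -/
noncomputable def mLeast (k n : ℕ) : ℕ :=
  sInf {e : ℕ | ∃ G : SimpleGraph (Fin n), Maximal k G ∧ G.edgeSet.ncard = e}

end Pool.Agent.Helper7.KB
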