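import Mathlib

/-!
# Segments in the plane: perturbation
-/

set_option autoImplicit false

namespace Pool.Agent.Helper7.KB

open Filter Topology

/-- the cross product of two vectors -/
def cr (a b : ℂ) : ℝ := a.re * b.im - a.im * b.re

/-- the scalar product of two vectors -/
def ip (a b : ℂ) : ℝ := a.re * b.re + a.im * b.im

theorem ip_eq (a b : ℂ) : (a * (starRingEnd ℂ) b).re = ip a b := by
  simp [ip, Complex.mul_re]

theorem mem_seg {a b z : ℂ} :
    z ∈ segment ℝ a b ↔ ∃ t : ℝ, 0 ≤ t ∧ t ≤ 1 ∧ z = a + (t : ℂ) * (b - a) := by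
  rw [segment_eq_image']
  constructor
  · rintro ⟨t, ⟨h0, h1⟩, rfl⟩
    exact ⟨t, h0, h1, by simp⟩
  · rintro ⟨t, h0, h1, rfl⟩
    exact ⟨t, ⟨h0, h1⟩, by simp⟩

theorem mem_oseg {a b z : ℂ} :
    z ∈ openSegment ℝ a b ↔ ∃ t : ℝ, 0 < t ∧ t < 1 ∧ z = a + (t : ℂ) * (b - a) := by
  rw [openSegment_eq_image']
  constructor
  · rintro ⟨t, ⟨h0, h1⟩, rfl⟩
    exact ⟨t, h0, h1, by simp⟩
  · rintro ⟨t, h0, h1, rfl⟩
    exact ⟨t, ⟨h0, h1⟩, by simp⟩

theorem left_notMem_oseg {a b : ℂ} (h : a ≠ b) : a ∉ openSegment ℝ a b := by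
  rw [left_mem_openSegment_iff]
  exact h

theorem right_notMem_oseg {a b : ℂ} (h : a ≠ b) : b ∉ openSegment ℝ a b := by
  rw [right_mem_openSegment_iff]
  exact h

theorem oseg_of {a b z : ℂ} (h : z ∈ segment ℝ a b) (ha : z ≠ a) (hb : z ≠ b) :
    z ∈ openSegment ℝ a b := mem_openSegment_of_ne_left_right ha.symm hb.symm h

/-- two segments with a common end `o` -/
theorem meet_common {o P b z : ℂ} (h : cr (P - o) (b - o) ≠ 0 ∨ ip (P - o) (b - o) < 0)
    (h1 : z ∈ segment ℝ o P) (h2 : z ∈ segment ℝ o b) : z = o := by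
  obtain ⟨x, hx0, _, hx⟩ := mem_seg.1 h1
  obtain ⟨y, hy0, _, hy⟩ := mem_seg.1 h2
  have e : (x : ℂ) * (P - o) = (y : ℂ) * (b - o) := by
    have := hx.symm.trans hy
    linear_combination this
  have e1 := congrArg Complex.re e
  have e2 := congrArg Complex.im e
  simp only [Complex.mul_re, Complex.mul_im, Complex.ofReal_re, Complex.ofReal_im, zero_mul,
    sub_zero, add_zero] at e1 e2
  have hx' : x = 0 := by
    rcases h with h | h
    · have : x * cr (P - o) (b - o) = 0 := by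
        unfold cr
        linear_combination (b - o).im * e1 - (b - o).re * e2
      rcases mul_eq_zero.1 this with h3 | h3
      · exact h3
      · exact absurd h3 h
    · by_contra hne
      have hxp : 0 < x := lt_of_le_of_ne hx0 (Ne.symm hne)
      have h3 : x * ip (P - o) (b - o) = y * ((b - o).re ^ 2 + (b - o).im ^ 2) := by
        unfold ip
        linear_combination (b - o).re * e1 + (b - o).im * e2
      have h4 : 0 ≤ y * ((b - o).re ^ 2 + (b - o).im ^ 2) := by positivity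
      nlinarith
  rw [hx, hx']
  simp

theorem common_of {o q b : ℂ} (hq : q ≠ o) (hb : b ≠ o)
    (h : ∀ z, z ∈ segment ℝ o q → z ∈ segment ℝ o b → z = o) :
    cr (q - o) (b - o) ≠ 0 ∨ ip (q - o) (b - o) < 0 := by
  by_contra hh
  push Not at hh
  obtain ⟨h1, h2⟩ := hh
  set A := (q - o).re with hA
  set B := (q - o).im with hB
  have hn : 0 < A ^ 2 + B ^ 2 := by
    have h3 : q - o ≠ 0 := sub_ne_zero.2 hq
    have h4 : A ≠ 0 ∨ B ≠ 0 := by
      by_contra h5
      push Not at h5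
      exact h3 (Complex.ext h5.1 h5.2)
    rcases h4 with h4 | h4
    · positivity
    · positivity
  set μ := ip (q - o) (b - o) / (A ^ 2 + B ^ 2) with hμ
  have hμ0 : 0 ≤ μ := div_nonneg h2 hn.le
  have e : b - o = (μ : ℂ) * (q - o) := by
    unfold cr at h1
    have hip : ip (q - o) (b - o) = A * (b - o).re + B * (b - o).im := rfl
    apply Complex.ext
    · simp only [Complex.mul_re, Complex.ofReal_re, Complex.ofReal_im, zero_mul, sub_zero]
      rw [hμ, hip, ← hA]
      field_simp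
      linear_combination (-B) * h1
    · simp only [Complex.mul_im, Complex.ofReal_re, Complex.ofReal_im, zero_mul, add_zero]
      rw [hμ, hip, ← hB]
      field_simp
      linear_combination A * h1
  rcases le_or_gt μ 1 with h3 | h3
  · exact hb (h b (mem_seg.2 ⟨μ, hμ0, h3, by linear_combination e⟩)
      (right_mem_segment ℝ o b))
  · refine hq (h q (right_mem_segment ℝ o q) (mem_seg.2 ⟨μ⁻¹, by positivity, ?_, ?_⟩))
    · exact inv_le_one_of_one_le₀ h3.le
    · rw [e]
      have hne : (μ : ℂ) ≠ 0 := by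
        exact_mod_cast (by linarith : μ ≠ 0)
      push_cast
      field_simp
      ring

/-- moving segments which have no common point in the limit -/
theorem disj_ev {A B S T : ℝ → ℂ} {a b s t : ℂ} {l : Filter ℝ} (hA : Tendsto A l (𝓝 a))
    (hB : Tendsto B l (𝓝 b)) (hS : Tendsto S l (𝓝 s)) (hT : Tendsto T l (𝓝 t))
    (h : ∀ z ∈ segment ℝ a b, z ∉ segment ℝ s t) :
    ∀ᶠ δ in l, ∀ z ∈ segment ℝ (A δ) (B δ), z ∉ segment ℝ (S δ) (T δ) := by
  have hc : ∀ x y : ℂ, IsCompact (segment ℝ x y) := fun x y => by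
    rw [segment_eq_image_lineMap]
    exact isCompact_Icc.image AffineMap.lineMap_continuous
  obtain ⟨r, hr, hd⟩ := Metric.exists_pos_forall_lt_edist (hc a b) (hc s t).isClosed
    (Set.disjoint_left.2 h)
  have hr' : (0 : ℝ) < r := hr
  have key : ∀ {x y u v z : ℂ} {ε : ℝ}, dist x u < ε → dist y v < ε → z ∈ segment ℝ x y →
      ∃ z' ∈ segment ℝ u v, dist z z' < ε := by
    intro x y u v z ε h1 h2 hz
    obtain ⟨c, h0, h1', rfl⟩ := mem_seg.1 hz
    refine ⟨u + (c : ℂ) * (v - u), mem_seg.2 ⟨c, h0, h1', rfl⟩, ?_⟩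
    have e : x + (c : ℂ) * (y - x) - (u + (c : ℂ) * (v - u)) =
        ((1 - c : ℝ) : ℂ) * (x - u) + (c : ℂ) * (y - v) := by
      push_cast
      ring
    rw [dist_eq_norm, e]
    rw [dist_eq_norm] at h1 h2
    have h3 : ‖((1 - c : ℝ) : ℂ) * (x - u) + (c : ℂ) * (y - v)‖ ≤
        (1 - c) * ‖x - u‖ + c * ‖y - v‖ := by
      refine (norm_add_le _ _).trans (le_of_eq ?_)
      rw [norm_mul, norm_mul, Complex.norm_real, Complex.norm_real, Real.norm_eq_abs,
        Real.norm_eq_abs, abs_of_nonneg h0, abs_of_nonneg (by linarith)]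
    refine lt_of_le_of_lt h3 ?_
    rcases eq_or_lt_of_le h0 with h4 | h4
    · rw [← h4]; linarith
    · nlinarith [norm_nonneg (x - u)]
  have h2 : (0 : ℝ) < r / 2 := by positivity
  filter_upwards [hA (Metric.ball_mem_nhds a h2), hB (Metric.ball_mem_nhds b h2),
    hS (Metric.ball_mem_nhds s h2), hT (Metric.ball_mem_nhds t h2)] with δ h3 h4 h5 h6 z hz hz'
  obtain ⟨z1, m1, d1⟩ := key h3 h4 hz
  obtain ⟨z2, m2, d2⟩ := key h5 h6 hz'
  have h7 := hd z1 m1 z2 m2
  rw [edist_dist] at h7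
  have h8 : dist z1 z2 < r := by
    have := dist_triangle z1 z z2
    rw [dist_comm z1 z] at this
    linarith
  have h9 : ENNReal.ofReal (dist z1 z2) < r := by
    rw [ENNReal.ofReal_lt_iff_lt_toReal dist_nonneg ENNReal.coe_ne_top]
    exact h8
  exact absurd h7 (not_lt.2 h9.le)

end Pool.Agent.Helper7.KB
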