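import Pool.Agent.Helper7.KB.Path

/-!
# A vertex can be joined to the two ends of an edge
-/

set_option autoImplicit false

namespace Pool.Agent.Helper7.KB

variable {V : Type*} {k : ℕ} {G : SimpleGraph V} {f : V → ℂ} {m : Sym2 V → ℕ}
  {c : Sym2 V → ℕ → ℂ}

/-- two chains meet only in points of `F` or at right angles -/
def Cross (F : ℂ → Prop) (q : ℕ → ℂ) (M : ℕ) (q' : ℕ → ℂ) (M' : ℕ) : Prop :=
  ∀ i < M, ∀ j < M', ∀ z, z ∈ segment ℝ (q i) (q (i + 1)) →
    z ∈ segment ℝ (q' j) (q' (j + 1)) →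
      F z ∨ (z ∈ openSegment ℝ (q i) (q (i + 1)) ∧ z ∈ openSegment ℝ (q' j) (q' (j + 1)) ∧
        ((q (i + 1) - q i) * (starRingEnd ℂ) (q' (j + 1) - q' j)).re = 0)

theorem Cross.symm {F : ℂ → Prop} {q : ℕ → ℂ} {M : ℕ} {q' : ℕ → ℂ} {M' : ℕ}
    (h : Cross F q M q' M') : Cross F q' M' q M := fun i hi j hj z hz hz' => by
  rcases h j hj i hi z hz' hz with g | ⟨g1, g2, g3⟩
  · exact Or.inl g
  · refine Or.inr ⟨g2, g1, ?_⟩
    rw [ip_eq] at g3 ⊢
    rw [← g3]
    unfold ip
    ring

open Classical in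
theorem IsDrawing.insert_aux [Finite V] (h : IsDrawing k G f m c) (hk : 1 ≤ k) {u w v : V}
    (huw : G.Adj u w) (hv : ∀ x, ¬ G.Adj v x) (h0 : c s(u, w) 0 = f u)
    (hm : c s(u, w) (m s(u, w)) = f w) :
    Drawable k (G ⊔ SimpleGraph.edge v u ⊔ SimpleGraph.edge v w) := by
  have hvu : v ≠ u := fun e => hv w (e ▸ huw)
  have hvw : v ≠ w := fun e => hv u (e ▸ huw.symm)
  have huw' : u ≠ w := huw.ne
  obtain ⟨p, M, hM4, hMk, hp0, hpM, hpn, hps, hpe, hpx⟩ :=
    h.exists_path hk v hvu hvw huw h0 hm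
  set e₁ : Sym2 V := s(v, w) with he₁
  set e₂ : Sym2 V := s(v, u) with he₂
  have h12 : e₂ ≠ e₁ := by
    rw [he₁, he₂]
    intro e
    rw [Sym2.eq_iff] at e
    rcases e with ⟨_, e⟩ | ⟨e, _⟩
    · exact huw' e
    · exact hvw e
  set f' : V → ℂ := Function.update f v (p 2) with hf'
  set m' : Sym2 V → ℕ := fun e => if e = e₁ then 2 else if e = e₂ then M - 2 else m e with hm'
  set c' : Sym2 V → ℕ → ℂ :=
    fun e => if e = e₁ then p else if e = e₂ then (fun i => p (i + 2)) else c e with hc'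
  have fv : f' v = p 2 := by simp [hf']
  have fx : ∀ x, x ≠ v → f' x = f x := fun x hx => by simp [hf', hx]
  have m1 : m' e₁ = 2 := by simp [hm']
  have m2 : m' e₂ = M - 2 := by simp [hm', h12]
  have c1 : c' e₁ = p := by simp [hc']
  have c2 : c' e₂ = fun i => p (i + 2) := by simp [hc', h12]
  have hvG : ∀ e ∈ G.edgeSet, v ∉ e := fun e he hve => by
    obtain ⟨y, rfl⟩ := Sym2.mem_iff_exists.1 hve
    exact hv y he
  have ne1 : ∀ e ∈ G.edgeSet, e ≠ e₁ := fun e he ee => by
    refine hvG e he ?_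
    rw [ee, he₁]
    simp
  have ne2 : ∀ e ∈ G.edgeSet, e ≠ e₂ := fun e he ee => by
    refine hvG e he ?_
    rw [ee, he₂]
    simp
  have mG : ∀ e ∈ G.edgeSet, m' e = m e := fun e he => by simp [hm', ne1 e he, ne2 e he]
  have cG : ∀ e ∈ G.edgeSet, c' e = c e := fun e he => by simp [hc', ne1 e he, ne2 e he]
  have hes : ∀ e ∈ (G ⊔ SimpleGraph.edge v u ⊔ SimpleGraph.edge v w).edgeSet,
      e ∈ G.edgeSet ∨ e = e₁ ∨ e = e₂ := fun e he => by
    rw [SimpleGraph.edgeSet_sup, SimpleGraph.edgeSet_sup, SimpleGraph.edgeSet_edge,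
      SimpleGraph.edgeSet_edge] at he
    rcases he with (he | he) | he
    · exact Or.inl he
    · exact Or.inr (Or.inr he.1)
    · exact Or.inr (Or.inl he.1)
  -- the point `p 2` is on no old chain, and not an old vertex
  have p2 : ∀ e ∈ G.edgeSet, ∀ j < m e, p 2 ∉ segment ℝ (c e j) (c e (j + 1)) :=
    fun e he j hj hz => by
    rcases hpe e he 1 (by omega) j hj (p 2) (right_mem_segment ℝ _ _) hz with
      ⟨g, _⟩ | ⟨g, _⟩ | ⟨_, _, g, _⟩
    · omega
    · omega
    · exact right_notMem_oseg (hpn 1 (by omega)) g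
  have p2x : ∀ x, x ≠ v → f x ≠ p 2 := fun x hx e => by
    rcases hpx x hx 1 (by omega) (e ▸ right_mem_segment ℝ _ _) with ⟨_, g⟩ | ⟨_, g⟩
    · omega
    · omega
  have pw : ∀ x i, i < 2 → f' x ∈ segment ℝ (p i) (p (i + 1)) → x ∈ e₁ := fun x i hi hz => by
    by_cases hxv : x = v
    · rw [hxv, he₁]; simp
    · rw [fx x hxv] at hz
      rcases hpx x hxv i (by omega) hz with ⟨g, _⟩ | ⟨_, g⟩
      · rw [g, he₁]; simp
      · omega
  have pu : ∀ x i, i < M - 2 → f' x ∈ segment ℝ (p (i + 2)) (p (i + 2 + 1)) → x ∈ e₂ :=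
    fun x i hi hz => by
    by_cases hxv : x = v
    · rw [hxv, he₂]; simp
    · rw [fx x hxv] at hz
      rcases hpx x hxv (i + 2) (by omega) hz with ⟨_, g⟩ | ⟨g, _⟩
      · omega
      · rw [g, he₂]; simp
  have fw : f' w = f w := fx w hvw.symm
  have fu : f' u = f u := fx u hvu.symm
  have X1 : ∀ e ∈ G.edgeSet, Cross (fun z => ∃ x, z = f' x) p 2 (c e) (m e) :=
    fun e he i hi j hj z hz hz' => by
    rcases hpe e he i (by omega) j hj z hz hz' with ⟨_, g⟩ | ⟨_, g⟩ | ⟨_, _, g⟩
    · exact Or.inl ⟨w, g.trans fw.symm⟩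
    · exact Or.inl ⟨u, g.trans fu.symm⟩
    · exact Or.inr g
  have X2 : ∀ e ∈ G.edgeSet,
      Cross (fun z => ∃ x, z = f' x) (fun i => p (i + 2)) (M - 2) (c e) (m e) :=
    fun e he i hi j hj z hz hz' => by
    rcases hpe e he (i + 2) (by omega) j hj z hz hz' with ⟨_, g⟩ | ⟨_, g⟩ | ⟨_, _, g⟩
    · exact Or.inl ⟨w, g.trans fw.symm⟩
    · exact Or.inl ⟨u, g.trans fu.symm⟩
    · exact Or.inr g
  have X3 : Cross (fun z => ∃ x, z = f' x) p 2 (fun i => p (i + 2)) (M - 2) :=
    fun i hi j hj z hz hz' => by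
    have g := hps i (j + 2) z (by omega) (by omega) hz hz'
    have g1 : j = 0 := by omega
    subst g1
    exact Or.inl ⟨v, g.2.trans fv.symm⟩
  have X4 : ∀ e ∈ G.edgeSet, ∀ e' ∈ G.edgeSet, e ≠ e' →
      Cross (fun z => ∃ x, z = f' x) (c e) (m e) (c e') (m e') :=
    fun e he e' he' hne i hi j hj z hz hz' => by
    rcases h.crs e he e' he' hne i hi j hj z hz hz' with ⟨x, rfl⟩ | g
    · refine Or.inl ⟨x, (fx x fun hx => ?_).symm⟩
      exact hvG e he (hx ▸ h.vtx e he i hi x hz)
    · exact Or.inr g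
  refine ⟨f', m', c', ?_, ?_, ?_, ?_, ?_, ?_, ?_⟩
  · intro x y hxy
    by_cases hx : x = v
    · by_cases hy : y = v
      · rw [hx, hy]
      · rw [hx, fv, fx y hy] at hxy
        exact absurd hxy.symm (p2x y hy)
    · by_cases hy : y = v
      · rw [hy, fv, fx x hx] at hxy
        exact absurd hxy (p2x x hx)
      · rw [fx x hx, fx y hy] at hxy
        exact h.inj hxy
  · have E1 : c' e₁ 0 = f' w ∧ c' e₁ (m' e₁) = f' v := by
      rw [c1, m1, fw, fv]
      exact ⟨hp0, rfl⟩
    have E2 : c' e₂ 0 = f' v ∧ c' e₂ (m' e₂) = f' u := by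
      rw [c2, m2, fu, fv]
      refine ⟨rfl, ?_⟩
      show p (M - 2 + 2) = f u
      rw [show M - 2 + 2 = M by omega]
      exact hpM
    intro a b hab
    rw [SimpleGraph.sup_adj, SimpleGraph.sup_adj, SimpleGraph.edge_adj, SimpleGraph.edge_adj]
      at hab
    rcases hab with (hab | ⟨hab, _⟩) | ⟨hab, _⟩
    · have ha : a ≠ v := fun e => hv b (e ▸ hab)
      have hb : b ≠ v := fun e => hv a (e ▸ hab.symm)
      rw [cG _ hab, mG _ hab, fx a ha, fx b hb]
      exact h.ends a b hab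
    · rcases hab with ⟨rfl, rfl⟩ | ⟨rfl, rfl⟩
      · exact Or.inl E2
      · rw [Sym2.eq_swap]
        exact Or.inr E2
    · rcases hab with ⟨rfl, rfl⟩ | ⟨rfl, rfl⟩
      · exact Or.inr E1
      · rw [Sym2.eq_swap]
        exact Or.inl E1
  · intro e he
    rcases hes e he with he | rfl | rfl
    · rw [mG e he]
      exact h.len e he
    · rw [m1]
      omega
    · rw [m2]
      omega
  · intro e he i hi
    rcases hes e he with he | rfl | rfl
    · rw [mG e he] at hi
      rw [cG e he]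
      exact h.ne e he i hi
    · rw [m1] at hi
      rw [c1]
      exact hpn i (by omega)
    · rw [m2] at hi
      rw [c2]
      exact hpn (i + 2) (by omega)
  · intro e he i j z hij hj hz hz'
    rcases hes e he with he | rfl | rfl
    · rw [mG e he] at hj
      rw [cG e he] at hz hz' ⊢
      exact h.simple e he i j z hij hj hz hz'
    · rw [m1] at hj
      rw [c1] at hz hz' ⊢
      exact hps i j z hij (by omega) hz hz'
    · rw [m2] at hj
      rw [c2] at hz hz' ⊢
      have := hps (i + 2) (j + 2) z (by omega) (by omega) hz hz'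
      exact ⟨by omega, this.2⟩
  · intro e he i hi x hx
    rcases hes e he with he | rfl | rfl
    · rw [mG e he] at hi
      rw [cG e he] at hx
      by_cases hxv : x = v
      · rw [hxv, fv] at hx
        exact absurd hx (p2 e he i hi)
      · rw [fx x hxv] at hx
        exact h.vtx e he i hi x hx
    · rw [m1] at hi
      rw [c1] at hx
      exact pw x i hi hx
    · rw [m2] at hi
      rw [c2] at hx
      exact pu x i hi hx
  · have key : ∀ e ∈ (G ⊔ SimpleGraph.edge v u ⊔ SimpleGraph.edge v w).edgeSet,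
        ∀ e' ∈ (G ⊔ SimpleGraph.edge v u ⊔ SimpleGraph.edge v w).edgeSet, e ≠ e' →
        Cross (fun z => ∃ x, z = f' x) (c' e) (m' e) (c' e') (m' e') := by
      intro e he e' he' hne
      rcases hes e he with he | rfl | rfl
      · rcases hes e' he' with he' | rfl | rfl
        · rw [cG e he, mG e he, cG e' he', mG e' he']
          exact X4 e he e' he' hne
        · rw [cG e he, mG e he, c1, m1]
          exact (X1 e he).symm
        · rw [cG e he, mG e he, c2, m2]
          exact (X2 e he).symm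
      · rcases hes e' he' with he' | rfl | rfl
        · rw [cG e' he', mG e' he', c1, m1]
          exact X1 e' he'
        · exact absurd rfl hne
        · rw [c1, m1, c2, m2]
          exact X3
      · rcases hes e' he' with he' | rfl | rfl
        · rw [cG e' he', mG e' he', c2, m2]
          exact X2 e' he'
        · rw [c1, m1, c2, m2]
          exact X3.symm
        · exact absurd rfl hne
    intro e he e' he' hne i hi j hj z hz hz'
    exact key e he e' he' hne i hi j hj z hz hz'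

/-- **Insertion.** -/
theorem Drawable.insert [Finite V] (h : Drawable k G) (hk : 1 ≤ k) {u w v : V}
    (huw : G.Adj u w) (hv : ∀ x, ¬ G.Adj v x) :
    Drawable k (G ⊔ SimpleGraph.edge v u ⊔ SimpleGraph.edge v w) := by
  obtain ⟨f, m, c, h⟩ := h
  rcases h.ends u w huw with ⟨h0, h1⟩ | ⟨h0, h1⟩
  · exact h.insert_aux hk huw hv h0 h1
  · rw [sup_assoc, sup_comm (SimpleGraph.edge v u), ← sup_assoc]
    refine h.insert_aux hk huw.symm hv ?_ ?_
    · rw [Sym2.eq_swap]
      exact h0
    · rw [Sym2.eq_swap]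
      exact h1

end Pool.Agent.Helper7.KB
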