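import Pool.Agent.Helper7.KB.Insert

/-!
# Maximal `k`-bend RAC drawable graphs have minimum degree at least two
-/

set_option autoImplicit false

namespace Pool.Agent.Helper7.KB

variable {V : Type*} {k : ℕ} {G H : SimpleGraph V}

theorem Drawable.mono (h : Drawable k G) (hle : H ≤ G) : Drawable k H := by
  obtain ⟨f, m, c, h⟩ := h
  have he : ∀ e ∈ H.edgeSet, e ∈ G.edgeSet := fun e he => SimpleGraph.edgeSet_mono hle he
  exact ⟨f, m, c, h.inj, fun u v huv => h.ends u v (hle huv), fun e hh => h.len e (he e hh),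
    fun e hh => h.ne e (he e hh), fun e hh => h.simple e (he e hh),
    fun e hh => h.vtx e (he e hh), fun e hh e' hh' => h.crs e (he e hh) e' (he e' hh')⟩

open Classical in
/-- one edge can be drawn -/
theorem drawable_edge [Finite V] (k : ℕ) (u w : V) : Drawable k (SimpleGraph.edge u w) := by
  obtain ⟨n, ⟨g⟩⟩ := Finite.exists_equiv_fin V
  set f : V → ℂ := fun x => if x = u then 0 else if x = w then 1 else
    ⟨0, ((g x : ℕ) : ℝ) + 1⟩ with hf
  have fu : f u = 0 := by simp [hf]
  have fw : u ≠ w → f w = 1 := fun h => by simp [hf, h.symm]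
  have fx : ∀ x, x ≠ u → x ≠ w → f x = ⟨0, ((g x : ℕ) : ℝ) + 1⟩ := fun x h1 h2 => by
    simp [hf, h1, h2]
  have him : ∀ x, x ≠ u → x ≠ w → 0 < (f x).im := fun x h1 h2 => by
    rw [fx x h1 h2]
    positivity
  have imu : (f u).im = 0 := by rw [fu]; rfl
  have imw : (f w).im = 0 := by
    by_cases h : w = u
    · rw [h]; exact imu
    · rw [fw (Ne.symm h)]; rfl
  refine ⟨f, fun _ => 1, fun _ i => if i = 0 then f u else f w, ?_, ?_, ?_, ?_, ?_, ?_, ?_⟩
  · intro x y hxy
    by_cases hxu : x = u
    · by_cases hyu : y = u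
      · rw [hxu, hyu]
      · by_cases hyw : y = w
        · rw [hxu, hyw, fu, fw (by rw [← hyw]; exact Ne.symm hyu)] at hxy
          exact absurd hxy zero_ne_one
        · have := him y hyu hyw
          rw [← hxy, hxu, imu] at this
          exact absurd this (lt_irrefl _)
    · by_cases hxw : x = w
      · by_cases hyu : y = u
        · rw [hxw, hyu, fu, fw (by rw [← hxw]; exact Ne.symm hxu)] at hxy
          exact absurd hxy one_ne_zero
        · by_cases hyw : y = w
          · rw [hxw, hyw]
          · have := him y hyu hyw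
            rw [← hxy, hxw, imw] at this
            exact absurd this (lt_irrefl _)
      · have h1 := him x hxu hxw
        by_cases hyu : y = u
        · rw [hxy, hyu, imu] at h1
          exact absurd h1 (lt_irrefl _)
        · by_cases hyw : y = w
          · rw [hxy, hyw, imw] at h1
            exact absurd h1 (lt_irrefl _)
          · rw [fx x hxu hxw, fx y hyu hyw] at hxy
            have h2 := congrArg Complex.im hxy
            have h3 : ((g x : ℕ) : ℝ) = ((g y : ℕ) : ℝ) := by
              simpa using h2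
            exact g.injective (Fin.ext (by exact_mod_cast h3))
  · intro a b hab
    rw [SimpleGraph.edge_adj] at hab
    rcases hab.1 with ⟨rfl, rfl⟩ | ⟨rfl, rfl⟩
    · exact Or.inl ⟨rfl, rfl⟩
    · exact Or.inr ⟨rfl, rfl⟩
  · intro e _
    omega
  · intro e he i hi
    have h0 : i = 0 := by omega
    subst h0
    rw [SimpleGraph.edgeSet_edge] at he
    have huw : u ≠ w := fun h => by
      rw [h] at he
      have h1 : e = s(w, w) := he.1
      exact he.2 (by rw [h1]; simp)
    show f u ≠ f w
    rw [fu, fw huw]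
    exact zero_ne_one
  · intro e _ i j z hij hj
    omega
  · intro e he i hi x hx
    have h0 : i = 0 := by omega
    subst h0
    rw [SimpleGraph.edgeSet_edge] at he
    have h1 : e = s(u, w) := he.1
    by_contra hne
    rw [h1, Sym2.mem_iff] at hne
    push Not at hne
    have h2 := him x hne.1 hne.2
    obtain ⟨t, _, _, ht⟩ := mem_seg.1 hx
    simp only [if_true, zero_add, one_ne_zero, if_false] at ht
    rw [ht] at h2
    simp [imu, imw] at h2
  · intro e he e' he' hne
    rw [SimpleGraph.edgeSet_edge] at he he'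
    exact absurd (he.1.trans he'.1.symm) hne

/-- there is a graph which is maximal in `C_k` -/
theorem exists_maximal [Finite V] (k : ℕ) : ∃ G : SimpleGraph V, Maximal k G := by
  have hne : {G : SimpleGraph V | Drawable k G}.Nonempty := by
    rcases isEmpty_or_nonempty V with h | ⟨⟨v⟩⟩
    · refine ⟨⊥, fun x => (h.false x).elim, fun _ => 0, fun _ _ => 0, fun x => (h.false x).elim,
        fun x => (h.false x).elim, ?_, ?_, ?_, ?_, ?_⟩
      all_goals
        intro e he
        simp at he
    · exact ⟨_, drawable_edge k v v⟩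
  obtain ⟨G, hG⟩ := (Set.toFinite {G : SimpleGraph V | Drawable k G}).exists_maximal hne
  refine ⟨G, hG.1, fun u w huw hn hd => ?_⟩
  have h1 : G ⊔ SimpleGraph.edge u w ≤ G := hG.2 hd le_sup_left
  refine hn (h1 ?_)
  rw [SimpleGraph.sup_adj, SimpleGraph.edge_adj]
  exact Or.inr ⟨Or.inl ⟨rfl, rfl⟩, huw⟩

/-- `G` without the edges at `v` -/
def del (G : SimpleGraph V) (v : V) : SimpleGraph V where
  Adj a b := G.Adj a b ∧ a ≠ v ∧ b ≠ v
  symm := ⟨fun _ _ h => ⟨h.1.symm, h.2.2, h.2.1⟩⟩
  loopless := ⟨fun _ h => h.1.ne rfl⟩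

theorem del_le (G : SimpleGraph V) (v : V) : del G v ≤ G := fun _ _ h => h.1

theorem edge_le {a b : V} (h : H.Adj a b) : SimpleGraph.edge a b ≤ H := fun x y hxy => by
  rw [SimpleGraph.edge_adj] at hxy
  rcases hxy.1 with ⟨rfl, rfl⟩ | ⟨rfl, rfl⟩
  · exact h
  · exact h.symm

theorem adj_edge {a b : V} (h : a ≠ b) : (SimpleGraph.edge a b).Adj a b := by
  rw [SimpleGraph.edge_adj]
  exact ⟨Or.inl ⟨rfl, rfl⟩, h⟩

/-- **The minimum degree.** -/
theorem Maximal.two_le [Finite V] (h : Maximal k G) (hk : 1 ≤ k) (hc : 3 ≤ Nat.card V) (v : V) :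
    2 ≤ (G.neighborSet v).ncard := by
  by_contra hlt
  have hle : (G.neighborSet v).ncard ≤ 1 := by omega
  rw [Set.ncard_le_one_iff] at hle
  obtain ⟨hd, hmax⟩ := h
  have hH : Drawable k (del G v) := hd.mono (del_le G v)
  have hvH : ∀ x, ¬ (del G v).Adj v x := fun x hx => hx.2.1 rfl
  -- a third vertex
  have third : ∀ a b : V, ∃ x, x ≠ a ∧ x ≠ b := fun a b => by
    by_contra hh
    push Not at hh
    have h1 : (Set.univ : Set V) ⊆ {a, b} := fun x _ => by
      by_cases hx : x = a
      · exact Or.inl hx
      · exact Or.inr (hh x hx)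
    have h2 := Set.ncard_le_ncard h1
    rw [Set.ncard_univ] at h2
    have h3 := Set.ncard_insert_le a {b}
    rw [Set.ncard_singleton] at h3
    omega
  by_cases hiso : ∀ x, ¬ G.Adj v x
  · by_cases he : ∃ x y, G.Adj x y
    · obtain ⟨x, y, hxy⟩ := he
      have hvx : v ≠ x := fun e => hiso y (e ▸ hxy)
      exact hmax v x hvx (hiso x) ((hd.insert hk hxy hiso).mono le_sup_left)
    · push Not at he
      obtain ⟨x, hx, _⟩ := third v v
      refine hmax v x hx.symm (hiso x) ((drawable_edge k v x).mono ?_)
      exact sup_le (fun a b hab => absurd hab (he a b)) le_rfl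
  · push Not at hiso
    obtain ⟨u, hvu⟩ := hiso
    have huniq : ∀ x, G.Adj v x → x = u := fun x hx => hle hx hvu
    have hG : ∀ K : SimpleGraph V, del G v ≤ K → SimpleGraph.edge v u ≤ K → G ≤ K :=
      fun K h1 h2 a b hab => by
      by_cases ha : a = v
      · subst ha
        rw [huniq b hab]
        exact h2 (adj_edge hvu.ne)
      · by_cases hb : b = v
        · subst hb
          rw [huniq a hab.symm]
          exact (h2 (adj_edge hvu.ne)).symm
        · exact h1 ⟨hab, ha, hb⟩
    by_cases h1 : ∃ w, (del G v).Adj u w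
    · obtain ⟨w, huw⟩ := h1
      have hwv : w ≠ v := huw.2.2
      refine hmax v w hwv.symm (fun hvw => ?_) ((hH.insert hk huw hvH).mono ?_)
      · exact huw.1.ne (huniq w hvw).symm
      · exact sup_le (hG _ (le_sup_left.trans le_sup_left) (le_sup_right.trans le_sup_left))
          le_sup_right
    · push Not at h1
      by_cases h2 : ∃ x y, (del G v).Adj x y
      · obtain ⟨x, y, hxy⟩ := h2
        have hux : u ≠ x := fun e => h1 y (e ▸ hxy)
        have huy : u ≠ y := fun e => h1 x (e ▸ hxy.symm)
        have h3 := hH.insert hk hxy (v := u) h1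
        have h4 := h3.insert hk (u := u) (w := x) (v := v)
          (by
            rw [SimpleGraph.sup_adj, SimpleGraph.sup_adj]
            exact Or.inl (Or.inr (adj_edge hux)))
          (fun z hz => by
            rw [SimpleGraph.sup_adj, SimpleGraph.sup_adj, SimpleGraph.edge_adj,
              SimpleGraph.edge_adj] at hz
            have hvx : v ≠ x := hxy.2.1.symm
            have hvy : v ≠ y := hxy.2.2.symm
            rcases hz with (hz | ⟨hz, _⟩) | ⟨hz, _⟩
            · exact hvH z hz
            · rcases hz with ⟨hz, _⟩ | ⟨hz, _⟩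
              · exact hvu.ne hz
              · exact hvx hz
            · rcases hz with ⟨hz, _⟩ | ⟨hz, _⟩
              · exact hvu.ne hz
              · exact hvy hz)
        refine hmax u x hux (fun hux' => ?_) (h4.mono ?_)
        · exact h1 x ⟨hux', hvu.ne.symm, hxy.2.1⟩
        · refine sup_le (hG _ ?_ ?_) ?_
          · exact ((le_sup_left.trans le_sup_left).trans le_sup_left).trans le_sup_left
          · exact le_sup_right.trans le_sup_left
          · exact ((le_sup_right.trans le_sup_left).trans le_sup_left).trans le_sup_left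
      · push Not at h2
        obtain ⟨x, hxv, hxu⟩ := third v u
        have hxiso : ∀ y, ¬ G.Adj x y := fun y hxy => by
          by_cases hy : y = v
          · subst hy
            exact hxu (huniq x hxy.symm)
          · exact h2 x y ⟨hxy, hxv, hy⟩
        exact hmax x v hxv (hxiso v) ((hd.insert hk hvu hxiso).mono le_sup_left)

open Classical in
/-- **The number of edges.** -/
theorem Maximal.card_le [Finite V] (h : Maximal k G) (hk : 1 ≤ k) (hc : 3 ≤ Nat.card V) :
    Nat.card V ≤ G.edgeSet.ncard := by
  haveI := Fintype.ofFinite V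
  have h1 := G.sum_degrees_eq_twice_card_edges
  have h2 : ∀ v, 2 ≤ G.degree v := fun v => by
    have h3 := h.two_le hk hc v
    rw [Set.ncard_eq_toFinset_card'] at h3
    exact h3
  have h3 : ∑ _v : V, 2 ≤ ∑ v, G.degree v := Finset.sum_le_sum fun v _ => h2 v
  rw [Finset.sum_const, smul_eq_mul, Finset.card_univ, h1] at h3
  rw [Nat.card_eq_fintype_card, Set.ncard_eq_toFinset_card']
  have h4 : G.edgeFinset.card = G.edgeSet.toFinset.card := rfl
  omega

theorem le_mLeast {k n : ℕ} (hk : 1 ≤ k) (hn : 3 ≤ n) : n ≤ mLeast k n := by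
  refine le_csInf ?_ ?_
  · obtain ⟨G, hG⟩ := exists_maximal (V := Fin n) k
    exact ⟨_, G, hG, rfl⟩
  · rintro _ ⟨G, hG, rfl⟩
    have := hG.card_le hk (by rw [Nat.card_eq_fintype_card, Fintype.card_fin]; exact hn)
    rwa [Nat.card_eq_fintype_card, Fintype.card_fin] at this

/-- the number `m_k (n)` is attained -/
theorem mLeast_mem (k n : ℕ) :
    ∃ G : SimpleGraph (Fin n), Maximal k G ∧ G.edgeSet.ncard = mLeast k n := by
  obtain ⟨G, hG⟩ := exists_maximal (V := Fin n) k
  exact Nat.sInf_mem (s := {e : ℕ | ∃ G : SimpleGraph (Fin n), Maximal k G ∧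
    G.edgeSet.ncard = e}) ⟨_, G, hG, rfl⟩

end Pool.Agent.Helper7.KB
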