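import Pool.Agent.Helper7.KB.PL

/-!
# A free piece of the chain near its first end
-/

set_option autoImplicit false

namespace Pool.Agent.Helper7.KB

open Filter Topology

variable {O : Set (ℂ × ℂ)} {X : Set ℂ} {q : ℕ → ℂ} {M : ℕ}

theorem perp_absurd {a b c d z : ℂ} (h1 : z ∈ segment ℝ a b) (h2 : z ∈ segment ℝ c d)
    (h3 : a ∈ segment ℝ c d) (hp : ip (b - a) (d - c) = 0) : z = a := by
  obtain ⟨x, _, _, hx⟩ := mem_seg.1 h1
  obtain ⟨y, _, _, hy⟩ := mem_seg.1 h2
  obtain ⟨w, _, _, hw⟩ := mem_seg.1 h3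
  have e1 : z - a = (x : ℂ) * (b - a) := by linear_combination hx
  have e2 : z - a = ((y - w : ℝ) : ℂ) * (d - c) := by
    push_cast
    linear_combination hy - hw
  have r1 := congrArg Complex.re e1
  have i1 := congrArg Complex.im e1
  have r2 := congrArg Complex.re e2
  have i2 := congrArg Complex.im e2
  simp only [Complex.mul_re, Complex.mul_im, Complex.ofReal_re, Complex.ofReal_im, zero_mul,
    sub_zero, add_zero] at r1 i1 r2 i2
  have h4 : (z - a).re ^ 2 + (z - a).im ^ 2 = 0 := by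
    unfold ip at hp
    have : (z - a).re ^ 2 + (z - a).im ^ 2 =
        (x * (y - w)) * ((b - a).re * (d - c).re + (b - a).im * (d - c).im) := by
      calc (z - a).re ^ 2 + (z - a).im ^ 2 = (z - a).re * (z - a).re + (z - a).im * (z - a).im := by
            ring
        _ = (x * (b - a).re) * ((y - w) * (d - c).re) +
            (x * (b - a).im) * ((y - w) * (d - c).im) := by
            rw [← r1, ← r2, ← i1, ← i2]
        _ = _ := by ring
    rw [this, hp, mul_zero]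
  have h5 : (z - a).re = 0 := by nlinarith [sq_nonneg (z - a).re, sq_nonneg (z - a).im]
  have h6 : (z - a).im = 0 := by nlinarith [sq_nonneg (z - a).re, sq_nonneg (z - a).im]
  exact sub_eq_zero.1 (Complex.ext h5 h6)

theorem mid_mem {a b c : ℂ} (h : b ∈ segment ℝ a c) : a + (1 / 2 : ℝ) * (b - a) ∈ segment ℝ a c :=
  seg_left_sub h (mem_seg.2 ⟨1 / 2, by norm_num, by norm_num, rfl⟩)

theorem mid_mem' {a b c d : ℂ} (ha : a ∈ segment ℝ c d) (hb : b ∈ segment ℝ c d) :
    a + (1 / 2 : ℝ) * (b - a) ∈ segment ℝ c d :=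
  (convex_segment c d).segment_subset ha hb (mem_seg.2 ⟨1 / 2, by norm_num, by norm_num, rfl⟩)

theorem PL.only (h : PL O X q M) (hM : 1 ≤ M) {s : ℂ × ℂ} (hs : s ∈ O)
    (h0 : q 0 ∈ segment ℝ s.1 s.2) {z : ℂ} (h1 : z ∈ segment ℝ (q 0) (q 1))
    (h2 : z ∈ segment ℝ s.1 s.2) : z = q 0 := by
  by_contra hz
  have h01 : q 0 ≠ q 1 := h.ne 0 (by omega)
  rcases h.crs s hs 0 (by omega) z h1 h2 with ⟨h3, _⟩ | ⟨h3, h4, _⟩ | ⟨_, _, h5⟩
  · exact hz h3
  · -- the middle point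
    have h4' : M = 1 := by omega
    subst h4'
    have m1 := mid_mem h1
    have m2 := mid_mem' h0 h2
    rcases h.crs s hs 0 (by omega) _ m1 m2 with ⟨h6, _⟩ | ⟨h6, _⟩ | ⟨_, _, h6⟩
    · apply hz
      have h7 : ((1 / 2 : ℝ) : ℂ) * (z - q 0) = 0 := by linear_combination h6
      rcases mul_eq_zero.1 h7 with h8 | h8
      · norm_num at h8
      · exact sub_eq_zero.1 h8
    · apply hz
      have h7 : ((1 / 2 : ℝ) : ℂ) * (z - q 0) = 0 := by
        rw [h3] at h6 ⊢
        push_cast at h6 ⊢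
        linear_combination -h6
      rcases mul_eq_zero.1 h7 with h8 | h8
      · norm_num at h8
      · exact sub_eq_zero.1 h8
    · have := perp_absurd m1 m2 h0 h6
      apply hz
      have h7 : ((1 / 2 : ℝ) : ℂ) * (z - q 0) = 0 := by linear_combination this
      rcases mul_eq_zero.1 h7 with h8 | h8
      · norm_num at h8
      · exact sub_eq_zero.1 h8
  · exact hz (perp_absurd h1 h2 h0 h5)

theorem PL.near (h : PL O X q M) (hM : 1 ≤ M) (hO : O.Finite) :
    ∃ t ∈ openSegment ℝ (q 0) (q 1), ∀ s ∈ O, ∀ z ∈ segment ℝ (q 0) t,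
      z ∈ segment ℝ s.1 s.2 → z = q 0 := by
  have hT : Tendsto (fun τ : ℝ => q 0 + (τ : ℂ) * (q 1 - q 0)) (𝓝[>] 0) (𝓝 (q 0)) := by
    have hc : Continuous fun τ : ℝ => q 0 + (τ : ℂ) * (q 1 - q 0) := by fun_prop
    have := hc.tendsto 0
    simp only [Complex.ofReal_zero, zero_mul, add_zero] at this
    exact this.mono_left nhdsWithin_le_nhds
  have h1 : ∀ᶠ τ : ℝ in 𝓝[>] 0, ∀ s ∈ O, ∀ z ∈ segment ℝ (q 0) (q 0 + (τ : ℂ) * (q 1 - q 0)),
      z ∈ segment ℝ s.1 s.2 → q 0 ∈ segment ℝ s.1 s.2 := by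
    rw [eventually_all_finite hO]
    intro s _
    by_cases h0 : q 0 ∈ segment ℝ s.1 s.2
    · exact Eventually.of_forall fun _ _ _ _ => h0
    · have := disj_ev (l := 𝓝[>] (0 : ℝ)) (tendsto_const_nhds (x := q 0)) hT
        (tendsto_const_nhds (x := s.1)) (tendsto_const_nhds (x := s.2)) (by
          intro z hz
          rw [segment_same] at hz
          rw [Set.mem_singleton_iff.1 hz]
          exact h0)
      filter_upwards [this] with τ hτ z hz hz'
      exact absurd hz' (hτ z hz)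
  have h2 : ∀ᶠ τ : ℝ in 𝓝[>] 0, τ ∈ Set.Ioo (0 : ℝ) 1 := Ioo_mem_nhdsGT one_pos
  obtain ⟨τ, h3, h4⟩ := (h1.and h2).exists
  have ht : q 0 + (τ : ℂ) * (q 1 - q 0) ∈ openSegment ℝ (q 0) (q 1) :=
    mem_oseg.2 ⟨τ, h4.1, h4.2, rfl⟩
  refine ⟨_, ht, fun s hs z hz hz' => ?_⟩
  exact h.only hM hs (h3 s hs z hz hz') (seg_left_sub (openSegment_subset_segment ℝ _ _ ht) hz) hz'

end Pool.Agent.Helper7.KB
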