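import Pool.Agent.Helper7.KB.Geo

/-!
# Polygonal chains among obstacles, and parallel chains
-/

set_option autoImplicit false

namespace Pool.Agent.Helper7.KB

open Filter Topology

/-- `q 0, .., q M` is a simple chain; the segments of `O` meet it only at right angles in interior
points, or in an end of the chain which is one of their ends; the points of `X` are not on it, up to
the ends. -/
structure PL (O : Set (ℂ × ℂ)) (X : Set ℂ) (q : ℕ → ℂ) (M : ℕ) : Prop where
  ne : ∀ i < M, q i ≠ q (i + 1)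
  simple : ∀ i j z, i < j → j < M → z ∈ segment ℝ (q i) (q (i + 1)) →
    z ∈ segment ℝ (q j) (q (j + 1)) → j = i + 1 ∧ z = q j
  crs : ∀ s ∈ O, ∀ i < M, ∀ z, z ∈ segment ℝ (q i) (q (i + 1)) → z ∈ segment ℝ s.1 s.2 →
    (z = q 0 ∧ i = 0 ∧ (z = s.1 ∨ z = s.2)) ∨ (z = q M ∧ i + 1 = M ∧ (z = s.1 ∨ z = s.2)) ∨
      (z ∈ openSegment ℝ (q i) (q (i + 1)) ∧ z ∈ openSegment ℝ s.1 s.2 ∧
        ip (q (i + 1) - q i) (s.2 - s.1) = 0)
  vtx : ∀ x ∈ X, ∀ i < M, x ∈ segment ℝ (q i) (q (i + 1)) →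
    (x = q 0 ∧ i = 0) ∨ (x = q M ∧ i + 1 = M)

variable {O : Set (ℂ × ℂ)} {X : Set ℂ} {q : ℕ → ℂ} {M : ℕ}

theorem PL.disj (h : PL O X q M) {i j : ℕ} (h1 : i + 1 < j) (h2 : j < M) (z : ℂ)
    (hz : z ∈ segment ℝ (q i) (q (i + 1))) : z ∉ segment ℝ (q j) (q (j + 1)) := fun hz' => by
  have := (h.simple i j z (by omega) h2 hz hz').1
  omega

/-- the corner `q (i + 1)` is not a cusp -/
theorem PL.corner (h : PL O X q M) {i : ℕ} (hi : i + 1 < M) :
    cr (q i - q (i + 1)) (q (i + 2) - q (i + 1)) ≠ 0 ∨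
      ip (q i - q (i + 1)) (q (i + 2) - q (i + 1)) < 0 := by
  refine common_of (h.ne i (by omega)) (h.ne (i + 1) hi).symm fun z h1 h2 => ?_
  rw [segment_symm] at h1
  exact (h.simple i (i + 1) z (by omega) hi h1 h2).2

theorem PL.q0_notMem (h : PL O X q M) {j : ℕ} (hj : 0 < j) (h2 : j < M) :
    q 0 ∉ segment ℝ (q j) (q (j + 1)) := fun hz => by
  have h3 := h.simple 0 j (q 0) hj h2 (left_mem_segment ℝ _ _) hz
  have h4 := h3.1
  subst h4
  exact h.ne 0 (by omega) h3.2

theorem PL.qM_notMem (h : PL O X q M) {i : ℕ} (hi : i + 1 < M) :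
    q M ∉ segment ℝ (q i) (q (i + 1)) := fun hz => by
  obtain ⟨N, rfl⟩ : ∃ N, M = N + 1 := ⟨M - 1, by omega⟩
  have h3 := h.simple i N (q (N + 1)) (by omega) (by omega) hz (right_mem_segment ℝ _ _)
  exact h.ne N (by omega) h3.2.symm

/-- the reversed chain -/
theorem PL.reverse (h : PL O X q M) : PL O X (fun i => q (M - i)) M := by
  have key : ∀ i < M, ∃ j < M, M - i = j + 1 ∧ M - (i + 1) = j ∧ i + j + 1 = M := fun i hi =>
    ⟨M - (i + 1), by omega, by omega, rfl, by omega⟩
  refine ⟨fun i hi => ?_, fun i j z hij hj h1 h2 => ?_, fun s hs i hi z h1 h2 => ?_,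
    fun x hx i hi h1 => ?_⟩
  · obtain ⟨j, hj, e1, e2, _⟩ := key i hi
    show q (M - i) ≠ q (M - (i + 1))
    rw [e1, e2]
    exact (h.ne j hj).symm
  · obtain ⟨a, ha, e1, e2, e3⟩ := key i (by omega)
    obtain ⟨b, hb, e4, e5, e6⟩ := key j hj
    simp only [e1, e2, e4, e5] at h1 h2 ⊢
    rw [segment_symm] at h1 h2
    have h3 := h.simple b a z (by omega) ha h2 h1
    refine ⟨by omega, ?_⟩
    rw [h3.2, h3.1]
  · obtain ⟨a, ha, e1, e2, e3⟩ := key i hi
    simp only [e1, e2, Nat.sub_zero, Nat.sub_self] at h1 ⊢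
    rw [segment_symm] at h1
    rcases h.crs s hs a ha z h1 h2 with ⟨h3, h4, h5⟩ | ⟨h3, h4, h5⟩ | ⟨h3, h4, h5⟩
    · exact Or.inr (Or.inl ⟨h3, by omega, h5⟩)
    · exact Or.inl ⟨h3, by omega, h5⟩
    · refine Or.inr (Or.inr ⟨by rw [openSegment_symm]; exact h3, h4, ?_⟩)
      unfold ip at h5 ⊢
      simp only [Complex.sub_re, Complex.sub_im] at h5 ⊢
      linarith
  · obtain ⟨a, ha, e1, e2, e3⟩ := key i hi
    simp only [e1, e2, Nat.sub_zero, Nat.sub_self] at h1 ⊢
    rw [segment_symm] at h1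
    rcases h.vtx x hx a ha h1 with ⟨h3, h4⟩ | ⟨h3, h4⟩
    · exact Or.inr ⟨h3, by omega⟩
    · exact Or.inl ⟨h3, by omega⟩

/-- the chain with the additional corner `t` in the first segment -/
def ins (q : ℕ → ℂ) (t : ℂ) (i : ℕ) : ℂ := if i = 0 then q 0 else if i = 1 then t else q (i - 1)

theorem ins_zero (q : ℕ → ℂ) (t : ℂ) : ins q t 0 = q 0 := rfl
theorem ins_one (q : ℕ → ℂ) (t : ℂ) : ins q t 1 = t := rfl
theorem ins_add (q : ℕ → ℂ) (t : ℂ) (i : ℕ) : ins q t (i + 2) = q (i + 1) := rfl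

theorem seg_left_sub {a b t z : ℂ} (ht : t ∈ segment ℝ a b) (hz : z ∈ segment ℝ a t) :
    z ∈ segment ℝ a b :=
  (convex_segment a b).segment_subset (left_mem_segment ℝ a b) ht hz

theorem seg_right_sub {a b t z : ℂ} (ht : t ∈ segment ℝ a b) (hz : z ∈ segment ℝ t b) :
    z ∈ segment ℝ a b :=
  (convex_segment a b).segment_subset ht (right_mem_segment ℝ a b) hz

theorem seg_split {a b t z : ℂ} (ht : t ∈ segment ℝ a b) (hz : z ∈ segment ℝ a b) :
    z ∈ segment ℝ a t ∨ z ∈ segment ℝ t b := by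
  obtain ⟨x, hx0, hx1, rfl⟩ := mem_seg.1 ht
  obtain ⟨y, hy0, hy1, rfl⟩ := mem_seg.1 hz
  rcases le_or_gt y x with h | h
  · left
    rcases eq_or_lt_of_le hx0 with h2 | h2
    · have : y = 0 := by linarith
      rw [this, ← h2]
      simp
    · refine mem_seg.2 ⟨y / x, by positivity, (div_le_one h2).2 h, ?_⟩
      have : (x : ℂ) ≠ 0 := by exact_mod_cast h2.ne'
      push_cast
      field_simp
      ring
  · right
    have h3 : 0 < 1 - x := by linarith
    refine mem_seg.2 ⟨(y - x) / (1 - x), by apply div_nonneg <;> linarith, ?_, ?_⟩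
    · rw [div_le_one h3]
      linarith
    · have : (1 - x : ℂ) ≠ 0 := by exact_mod_cast h3.ne'
      push_cast
      field_simp
      ring

theorem seg_meet {a b t z : ℂ} (hab : a ≠ b) (ht : t ∈ segment ℝ a b) (h1 : z ∈ segment ℝ a t)
    (h2 : z ∈ segment ℝ t b) : z = t := by
  obtain ⟨x, hx0, hx1, rfl⟩ := mem_seg.1 ht
  obtain ⟨y, hy0, hy1, rfl⟩ := mem_seg.1 h1
  obtain ⟨w, hw0, hw1, hw⟩ := mem_seg.1 h2
  have hne : b - a ≠ 0 := sub_ne_zero.2 hab.symm
  have h3 : ((y * x - (x + w * (1 - x)) : ℝ) : ℂ) * (b - a) = 0 := by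
    push_cast
    linear_combination hw
  rcases mul_eq_zero.1 h3 with h4 | h4
  · have h5 : y * x - (x + w * (1 - x)) = 0 := by exact_mod_cast h4
    have h6 : y * x = x := by nlinarith [mul_nonneg hw0 (sub_nonneg.2 hx1)]
    have h7 : (y : ℂ) * x = x := by exact_mod_cast h6
    linear_combination (b - a) * h7
  · exact absurd h4 hne

/-- a segment of the refined chain lies in a segment of the chain -/
theorem ins_sub {t : ℂ} (ht : t ∈ segment ℝ (q 0) (q 1)) (i : ℕ) (z : ℂ)
    (hz : z ∈ segment ℝ (ins q t i) (ins q t (i + 1))) :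
    z ∈ segment ℝ (q (i - 1)) (q (i - 1 + 1)) := by
  match i with
  | 0 => exact seg_left_sub ht hz
  | 1 => exact seg_right_sub ht hz
  | i + 2 => exact hz

theorem PL.insert (h : PL O X q M) (hM : 1 ≤ M) {t : ℂ} (ht : t ∈ openSegment ℝ (q 0) (q 1))
    (hO : ∀ s ∈ O, t ∉ segment ℝ s.1 s.2) : PL O X (ins q t) (M + 1) := by
  have ht' : t ∈ segment ℝ (q 0) (q 1) := openSegment_subset_segment ℝ _ _ ht
  have h01 : q 0 ≠ q 1 := h.ne 0 (by omega)
  have ht0 : t ≠ q 0 := fun e => left_notMem_oseg h01 (e ▸ ht)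
  have ht1 : t ≠ q 1 := fun e => right_notMem_oseg h01 (e ▸ ht)
  have endM : ins q t (M + 1) = q M := by
    obtain ⟨N, rfl⟩ : ∃ N, M = N + 1 := ⟨M - 1, by omega⟩
    rfl
  refine ⟨fun i hi => ?_, fun i j z hij hj h1 h2 => ?_, fun s hs i hi z h1 h2 => ?_,
    fun x hx i hi h1 => ?_⟩
  · match i with
    | 0 => exact ht0.symm
    | 1 => exact ht1
    | i + 2 => exact h.ne (i + 1) (by omega)
  · match i, j with
    | 0, 1 => exact ⟨rfl, seg_meet h01 ht' h1 h2⟩
    | 0, j + 2 =>
      exfalso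
      have h3 := h.simple 0 (j + 1) z (by omega) (by omega) (seg_left_sub ht' h1) h2
      have h4 : j = 0 := by omega
      subst h4
      have h5 : z = q 1 := h3.2
      rw [h5] at h1
      have h1' : q 1 ∈ segment ℝ (q 0) t := h1
      exact ht1 (seg_meet h01 ht' h1' (right_mem_segment ℝ _ _)).symm
    | 1, j + 2 =>
      have h3 := h.simple 0 (j + 1) z (by omega) (by omega) (seg_right_sub ht' h1) h2
      have h4 : j = 0 := by omega
      subst h4
      exact ⟨rfl, h3.2⟩
    | i + 2, j + 2 =>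
      have h3 := h.simple (i + 1) (j + 1) z (by omega) (by omega) h1 h2
      exact ⟨by omega, h3.2⟩
  · have hz := ins_sub ht' i z h1
    have hi' : i - 1 < M := by omega
    rcases h.crs s hs (i - 1) hi' z hz h2 with ⟨h3, h4, h5⟩ | ⟨h3, h4, h5⟩ | ⟨h3, h4, h5⟩
    · match i with
      | 0 => exact Or.inl ⟨h3, rfl, h5⟩
      | 1 =>
        exfalso
        rw [h3] at h1
        have h1' : q 0 ∈ segment ℝ t (q 1) := h1
        exact ht0 (seg_meet h01 ht' (left_mem_segment ℝ _ _) h1').symm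
      | i + 2 => omega
    · match i with
      | 0 =>
        exfalso
        have h4' : M = 1 := by omega
        subst h4'
        rw [h3] at h1
        have h1' : q 1 ∈ segment ℝ (q 0) t := h1
        exact ht1 (seg_meet h01 ht' h1' (right_mem_segment ℝ _ _)).symm
      | i + 1 => exact Or.inr (Or.inl ⟨by rw [endM]; exact h3, by omega, h5⟩)
    · refine Or.inr (Or.inr ⟨?_, h4, ?_⟩)
      · match i with
        | 0 =>
          refine oseg_of h1 (fun e => ?_) (fun e => ?_)
          · rw [e] at h3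
            exact left_notMem_oseg h01 h3
          · have e' : z = t := e
            exact hO s hs (e' ▸ h2)
        | 1 =>
          refine oseg_of h1 (fun e => ?_) (fun e => ?_)
          · have e' : z = t := e
            exact hO s hs (e' ▸ h2)
          · rw [e] at h3
            exact right_notMem_oseg h01 h3
        | i + 2 => exact h3
      · obtain ⟨x, hx0, hx1, hx⟩ := mem_oseg.1 ht
        have hr : t.re = (q 0).re + x * ((q 1).re - (q 0).re) := by
          rw [hx]; simp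
        have him : t.im = (q 0).im + x * ((q 1).im - (q 0).im) := by
          rw [hx]; simp
        match i with
        | 0 =>
          show ip (t - q 0) (s.2 - s.1) = 0
          unfold ip at h5 ⊢
          simp only [Complex.sub_re, Complex.sub_im] at h5 ⊢
          rw [hr, him]
          linear_combination x * h5
        | 1 =>
          show ip (q 1 - t) (s.2 - s.1) = 0
          unfold ip at h5 ⊢
          simp only [Complex.sub_re, Complex.sub_im] at h5 ⊢
          rw [hr, him]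
          linear_combination (1 - x) * h5
        | i + 2 => exact h5
  · have hz := ins_sub ht' i x h1
    rcases h.vtx x hx (i - 1) (by omega) hz with ⟨h3, h4⟩ | ⟨h3, h4⟩
    · match i with
      | 0 => exact Or.inl ⟨h3, rfl⟩
      | 1 =>
        exfalso
        rw [h3] at h1
        have h1' : q 0 ∈ segment ℝ t (q 1) := h1
        exact ht0 (seg_meet h01 ht' (left_mem_segment ℝ _ _) h1').symm
      | i + 2 => omega
    · match i with
      | 0 =>
        exfalso
        have h4' : M = 1 := by omega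
        subst h4'
        rw [h3] at h1
        have h1' : q 1 ∈ segment ℝ (q 0) t := h1
        exact ht1 (seg_meet h01 ht' h1' (right_mem_segment ℝ _ _)).symm
      | i + 1 => exact Or.inr ⟨by rw [endM]; exact h3, by omega⟩

end Pool.Agent.Helper7.KB
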