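import Pool.Agent.Helper7.KB.Refine

/-!
# The parallel chain
-/

set_option autoImplicit false

namespace Pool.Agent.Helper7.KB

open Filter Topology

variable {O : Set (ℂ × ℂ)} {X : Set ℂ} {q : ℕ → ℂ} {M : ℕ}

/-- the directions in which the corners are moved -/
structure Dirs (q e : ℕ → ℂ) (lam : ℕ → ℝ) (n : ℕ) : Prop where
  step : ∀ i, 1 ≤ i → i < n → e (i + 1) = e i + (lam i : ℂ) * (q (i + 1) - q i)
  pos : ∀ i, 1 ≤ i → i ≤ n → 0 < cr (q (i + 1) - q i) (e i)
  zero : 0 < cr (q 1 - q 0) (e 1)

theorem cr_smul (x : ℝ) (a b : ℂ) : cr ((x : ℂ) * a) b = x * cr a b := by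
  simp [cr]
  ring

theorem cr_add_smul (a b d : ℂ) (x : ℝ) : cr a (b + (x : ℂ) * d) = cr a b + x * cr a d := by
  simp [cr]
  ring

theorem cr_self (a : ℂ) : cr a a = 0 := by
  simp [cr]
  ring

theorem nsq_pos {a : ℂ} (h : a ≠ 0) : 0 < a.re ^ 2 + a.im ^ 2 := by
  by_contra hh
  apply h
  have h1 : a.re = 0 := by nlinarith [sq_nonneg a.re, sq_nonneg a.im]
  have h2 : a.im = 0 := by nlinarith [sq_nonneg a.re, sq_nonneg a.im]
  exact Complex.ext h1 h2

theorem PL.exists_dirs (h : PL O X q M) (hM : 2 ≤ M) (hs : Str q) :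
    ∃ e lam, Dirs q e lam (M - 1) := by
  have key : ∀ n, n + 1 < M → ∃ e lam, Dirs q e lam (n + 1) := by
    intro n
    induction n with
    | zero =>
      intro _
      have h12 : q 2 - q 1 ≠ 0 := sub_ne_zero.2 (h.ne 1 (by omega)).symm
      have hp := nsq_pos h12
      refine ⟨fun _ => Complex.I * (q 2 - q 1), fun _ => 0, fun i h1 h2 => by omega,
        fun i h1 h2 => ?_, ?_⟩
      · have : i = 1 := by omega
        subst this
        show 0 < cr (q 2 - q 1) (Complex.I * (q 2 - q 1))
        unfold cr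
        simp only [Complex.mul_re, Complex.mul_im, Complex.I_re, Complex.I_im]
        nlinarith
      · obtain ⟨μ, hμ, e⟩ := hs
        rw [e, cr_smul]
        refine mul_pos hμ ?_
        unfold cr
        simp only [Complex.mul_re, Complex.mul_im, Complex.I_re, Complex.I_im]
        nlinarith
    | succ n ih =>
      intro hn
      obtain ⟨e, lam, hd⟩ := ih (by omega)
      have hlam : ∃ x : ℝ, 0 < cr (q (n + 3) - q (n + 2))
          (e (n + 1) + (x : ℂ) * (q (n + 2) - q (n + 1))) := by
        by_cases hc : cr (q (n + 3) - q (n + 2)) (q (n + 2) - q (n + 1)) = 0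
        · refine ⟨0, ?_⟩
          rw [cr_add_smul]
          have h1 := hd.pos (n + 1) (by omega) (by omega)
          have h2 := h.corner (i := n + 1) (by omega)
          have h3 : 0 < ip (q (n + 2) - q (n + 1)) (q (n + 3) - q (n + 2)) := by
            rcases h2 with h2 | h2
            · exfalso
              apply h2
              unfold cr at hc ⊢
              simp only [Complex.sub_re, Complex.sub_im] at hc ⊢
              linear_combination hc
            · unfold ip at h2 ⊢
              simp only [Complex.sub_re, Complex.sub_im] at h2 ⊢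
              nlinarith
          have h4 := nsq_pos (sub_ne_zero.2 (h.ne (n + 1) (by omega)).symm)
          have h5 : ((q (n + 2) - q (n + 1)).re ^ 2 + (q (n + 2) - q (n + 1)).im ^ 2) *
              cr (q (n + 3) - q (n + 2)) (e (n + 1)) =
              ip (q (n + 2) - q (n + 1)) (e (n + 1)) *
                cr (q (n + 3) - q (n + 2)) (q (n + 2) - q (n + 1)) +
              cr (q (n + 2) - q (n + 1)) (e (n + 1)) *
                ip (q (n + 2) - q (n + 1)) (q (n + 3) - q (n + 2)) := by
            unfold cr ip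
            ring
          rw [hc, mul_zero, zero_add] at h5
          have h6 : 0 < ((q (n + 2) - q (n + 1)).re ^ 2 + (q (n + 2) - q (n + 1)).im ^ 2) *
              cr (q (n + 3) - q (n + 2)) (e (n + 1)) := by
            rw [h5]
            exact mul_pos h1 h3
          have h7 := (mul_pos_iff_of_pos_left h4).1 h6
          linarith
        · refine ⟨(1 - cr (q (n + 3) - q (n + 2)) (e (n + 1))) /
            cr (q (n + 3) - q (n + 2)) (q (n + 2) - q (n + 1)), ?_⟩
          rw [cr_add_smul, div_mul_cancel₀ _ hc]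
          linarith
      obtain ⟨x, hx⟩ := hlam
      refine ⟨Function.update e (n + 2) (e (n + 1) + (x : ℂ) * (q (n + 2) - q (n + 1))),
        Function.update lam (n + 1) x, fun i h1 h2 => ?_, fun i h1 h2 => ?_, ?_⟩
      · rcases Nat.lt_or_ge i (n + 1) with h3 | h3
        · rw [Function.update_of_ne (by omega), Function.update_of_ne (by omega),
            Function.update_of_ne (by omega)]
          exact hd.step i h1 h3
        · have h4 : i = n + 1 := by omega
          subst h4
          rw [Function.update_self, Function.update_of_ne (by omega), Function.update_self]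
      · rcases Nat.lt_or_ge i (n + 2) with h3 | h3
        · rw [Function.update_of_ne (by omega)]
          exact hd.pos i h1 (by omega)
        · have h4 : i = n + 2 := by omega
          subst h4
          rw [Function.update_self]
          exact hx
      · rw [Function.update_of_ne (by omega)]
        exact hd.zero
  obtain ⟨e, lam, hd⟩ := key (M - 2) (by omega)
  have e1 : M - 2 + 1 = M - 1 := by omega
  rw [e1] at hd
  exact ⟨e, lam, hd⟩

theorem Dirs.next {e : ℕ → ℂ} {lam : ℕ → ℝ} (hd : Dirs q e lam (M - 1)) {i : ℕ}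
    (hi : i + 1 < M) : 0 < cr (q (i + 1) - q i) (e (i + 1)) := by
  match i with
  | 0 => exact hd.zero
  | i + 1 =>
    rw [hd.step (i + 1) (by omega) (by omega), cr_add_smul, cr_self, mul_zero, add_zero]
    exact hd.pos (i + 1) (by omega) (by omega)

/-- the parallel chain -/
def par (q e : ℕ → ℂ) (M : ℕ) (δ : ℝ) (i : ℕ) : ℂ :=
  if i = 0 then q 0 else if i = M then q M else q i + (δ : ℂ) * e i

theorem par_zero (q e : ℕ → ℂ) (M : ℕ) (δ : ℝ) : par q e M δ 0 = q 0 := rfl

theorem par_M (q e : ℕ → ℂ) {M : ℕ} (hM : 1 ≤ M) (δ : ℝ) : par q e M δ M = q M := by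
  unfold par
  rw [if_neg (by omega), if_pos rfl]

theorem par_mid (q e : ℕ → ℂ) {M : ℕ} (δ : ℝ) {i : ℕ} (h1 : 1 ≤ i) (h2 : i < M) :
    par q e M δ i = q i + (δ : ℂ) * e i := by
  unfold par
  rw [if_neg (by omega), if_neg (by omega)]

theorem par_tendsto (q e : ℕ → ℂ) (M i : ℕ) :
    Tendsto (fun δ : ℝ => par q e M δ i) (𝓝[>] 0) (𝓝 (q i)) := by
  unfold par
  split_ifs with h1 h2
  · rw [h1]
    exact tendsto_const_nhds
  · rw [h2]
    exact tendsto_const_nhds
  · have hc : Continuous fun δ : ℝ => q i + (δ : ℂ) * e i := by fun_prop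
    have := hc.tendsto 0
    simp only [Complex.ofReal_zero, zero_mul, add_zero] at this
    exact this.mono_left nhdsWithin_le_nhds

theorem cr_cont {α : Type*} {l : Filter α} {A B : α → ℂ} {a b : ℂ} (hA : Tendsto A l (𝓝 a))
    (hB : Tendsto B l (𝓝 b)) : Tendsto (fun x => cr (A x) (B x)) l (𝓝 (cr a b)) := by
  unfold cr
  have h1 := (Complex.continuous_re.tendsto a).comp hA
  have h2 := (Complex.continuous_im.tendsto a).comp hA
  have h3 := (Complex.continuous_re.tendsto b).comp hB
  have h4 := (Complex.continuous_im.tendsto b).comp hB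
  exact (h1.mul h4).sub (h2.mul h3)

theorem ip_cont {α : Type*} {l : Filter α} {A B : α → ℂ} {a b : ℂ} (hA : Tendsto A l (𝓝 a))
    (hB : Tendsto B l (𝓝 b)) : Tendsto (fun x => ip (A x) (B x)) l (𝓝 (ip a b)) := by
  unfold ip
  have h1 := (Complex.continuous_re.tendsto a).comp hA
  have h2 := (Complex.continuous_im.tendsto a).comp hA
  have h3 := (Complex.continuous_re.tendsto b).comp hB
  have h4 := (Complex.continuous_im.tendsto b).comp hB
  exact (h1.mul h3).add (h2.mul h4)

/-- two moving segments with a common end -/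
theorem common_ev {P R S : ℝ → ℂ} {o p r : ℂ} {l : Filter ℝ} (hS : Tendsto S l (𝓝 o))
    (hP : Tendsto P l (𝓝 p)) (hR : Tendsto R l (𝓝 r))
    (h : cr (p - o) (r - o) ≠ 0 ∨ ip (p - o) (r - o) < 0) :
    ∀ᶠ δ in l, ∀ z ∈ segment ℝ (S δ) (P δ), z ∈ segment ℝ (S δ) (R δ) → z = S δ := by
  have h1 := cr_cont (hP.sub hS) (hR.sub hS)
  have h2 := ip_cont (hP.sub hS) (hR.sub hS)
  rcases h with h | h
  · filter_upwards [h1.eventually_ne h] with δ hδ z hz hz'
    exact meet_common (Or.inl hδ) hz hz'
  · filter_upwards [h2.eventually_lt_const h] with δ hδ z hz hz'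
    exact meet_common (Or.inr hδ) hz hz'

/-- a moving segment from a fixed point `o` -/
theorem end_ev {P : ℝ → ℂ} {o p a b : ℂ} {l : Filter ℝ} (hP : Tendsto P l (𝓝 p)) (hp : p ≠ o)
    (h : ∀ z ∈ segment ℝ o p, z ∈ segment ℝ a b → z = o)
    (ho : o ∈ segment ℝ a b → o = a ∨ o = b) :
    ∀ᶠ δ in l, ∀ z ∈ segment ℝ o (P δ), z ∈ segment ℝ a b → z = o := by
  by_cases h0 : o ∈ segment ℝ a b
  · have key : ∀ c : ℂ, (∀ z ∈ segment ℝ o p, z ∈ segment ℝ o c → z = o) →
        ∀ᶠ δ in l, ∀ z ∈ segment ℝ o (P δ), z ∈ segment ℝ o c → z = o := by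
      intro c hc
      by_cases hco : c = o
      · refine Eventually.of_forall fun δ z _ hz => ?_
        rw [hco, segment_same] at hz
        exact Set.mem_singleton_iff.1 hz
      · exact common_ev tendsto_const_nhds hP tendsto_const_nhds (common_of hp hco hc)
    rcases ho h0 with h1 | h1
    · rw [← h1] at h ⊢
      exact key b h
    · rw [← h1, segment_symm ℝ a o] at h ⊢
      exact key a h
  · have := disj_ev (tendsto_const_nhds (x := o)) hP (tendsto_const_nhds (x := a))
      (tendsto_const_nhds (x := b)) (fun z hz hz' => h0 (h z hz hz' ▸ hz'))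
    filter_upwards [this] with δ hδ z hz hz'
    exact absurd hz' (hδ z hz)

end Pool.Agent.Helper7.KB
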