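import Pool.Agent.Helper7.KB.Par

/-!
# The parallel chain: crossings
-/

set_option autoImplicit false

namespace Pool.Agent.Helper7.KB

open Filter Topology

variable {O : Set (ℂ × ℂ)} {X : Set ℂ} {q : ℕ → ℂ} {M : ℕ} {e : ℕ → ℂ} {lam : ℕ → ℝ}

theorem ev_pos : ∀ᶠ δ : ℝ in 𝓝[>] 0, 0 < δ := self_mem_nhdsWithin

/-- the middle segments are parallel to the old ones -/
theorem Dirs.par (hd : Dirs q e lam (M - 1)) {i : ℕ} (h1 : 1 ≤ i) (h2 : i + 1 < M) (δ : ℝ) :
    par q e M δ (i + 1) - par q e M δ i = ((1 + δ * lam i : ℝ) : ℂ) * (q (i + 1) - q i) := by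
  rw [par_mid q e δ (by omega) h2, par_mid q e δ h1 (by omega), hd.step i h1 (by omega)]
  push_cast
  ring

theorem ev_ne (h : PL O X q M) {i : ℕ} (hi : i < M) :
    ∀ᶠ δ : ℝ in 𝓝[>] 0, par q e M δ i ≠ par q e M δ (i + 1) := by
  have h1 := (par_tendsto q e M i).sub (par_tendsto q e M (i + 1))
  filter_upwards [h1.eventually_ne (sub_ne_zero.2 (h.ne i hi))] with δ hδ
  exact sub_ne_zero.1 hδ

/-- the parallel chain and the obstacles -/
theorem ev_obst (h : PL O X q M) (hM : 4 ≤ M) (hd : Dirs q e lam (M - 1)) (h0 : Free0 O q)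
    (hL : FreeM O q M) {s : ℂ × ℂ} (hs : s ∈ O) (hs12 : s.1 ≠ s.2) {i : ℕ} (hi : i < M) :
    ∀ᶠ δ : ℝ in 𝓝[>] 0, ∀ z ∈ segment ℝ (par q e M δ i) (par q e M δ (i + 1)),
      z ∈ segment ℝ s.1 s.2 → (i = 0 ∧ z = q 0) ∨ (i + 1 = M ∧ z = q M) ∨
        (1 ≤ i ∧ i + 1 < M ∧ z ∈ openSegment ℝ (par q e M δ i) (par q e M δ (i + 1)) ∧
          z ∈ openSegment ℝ s.1 s.2 ∧
          ip (par q e M δ (i + 1) - par q e M δ i) (s.2 - s.1) = 0) := by
  rcases Nat.eq_zero_or_pos i with h1 | h1
  · subst h1
    have h2 := end_ev (l := 𝓝[>] (0 : ℝ)) (par_tendsto q e M 1) (h.ne 0 hi).symm (h0 s hs)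
      (fun ho => by
        rcases h.crs s hs 0 hi (q 0) (left_mem_segment ℝ _ _) ho with ⟨_, _, h3⟩ | ⟨_, h3, _⟩ |
          ⟨h3, _⟩
        · exact h3
        · omega
        · exact absurd h3 (left_notMem_oseg (h.ne 0 hi)))
    filter_upwards [h2] with δ hδ z hz hz'
    exact Or.inl ⟨rfl, hδ z hz hz'⟩
  · rcases Nat.lt_or_ge (i + 1) M with h2 | h2
    · -- middle segments
      have hmid : ∀ z ∈ segment ℝ (q i) (q (i + 1)), z ∈ segment ℝ s.1 s.2 →
          z ∈ openSegment ℝ (q i) (q (i + 1)) ∧ z ∈ openSegment ℝ s.1 s.2 ∧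
            ip (q (i + 1) - q i) (s.2 - s.1) = 0 := fun z hz hz' => by
        rcases h.crs s hs i hi z hz hz' with ⟨_, h3, _⟩ | ⟨_, h3, _⟩ | h3
        · omega
        · omega
        · exact h3
      have hne := h.ne i hi
      have n1 : q i ∉ segment ℝ s.1 s.2 := fun hq =>
        left_notMem_oseg hne (hmid _ (left_mem_segment ℝ _ _) hq).1
      have n2 : q (i + 1) ∉ segment ℝ s.1 s.2 := fun hq =>
        right_notMem_oseg hne (hmid _ (right_mem_segment ℝ _ _) hq).1
      by_cases hex : ∃ z ∈ segment ℝ (q i) (q (i + 1)), z ∈ segment ℝ s.1 s.2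
      · obtain ⟨z0, hz0, hz0'⟩ := hex
        obtain ⟨_, _, hip⟩ := hmid z0 hz0 hz0'
        have n3 : s.1 ∉ segment ℝ (q i) (q (i + 1)) := fun hq =>
          left_notMem_oseg hs12 (hmid _ hq (left_mem_segment ℝ _ _)).2.1
        have n4 : s.2 ∉ segment ℝ (q i) (q (i + 1)) := fun hq =>
          right_notMem_oseg hs12 (hmid _ hq (right_mem_segment ℝ _ _)).2.1
        have e1 := disj_ev (l := 𝓝[>] (0 : ℝ)) (par_tendsto q e M i) (par_tendsto q e M i)
          (tendsto_const_nhds (x := s.1)) (tendsto_const_nhds (x := s.2)) (by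
            intro z hz
            rw [segment_same] at hz
            rw [Set.mem_singleton_iff.1 hz]
            exact n1)
        have e2 := disj_ev (l := 𝓝[>] (0 : ℝ)) (par_tendsto q e M (i + 1))
          (par_tendsto q e M (i + 1))
          (tendsto_const_nhds (x := s.1)) (tendsto_const_nhds (x := s.2)) (by
            intro z hz
            rw [segment_same] at hz
            rw [Set.mem_singleton_iff.1 hz]
            exact n2)
        have e3 := disj_ev (l := 𝓝[>] (0 : ℝ)) (tendsto_const_nhds (x := s.1))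
          (tendsto_const_nhds (x := s.1)) (par_tendsto q e M i) (par_tendsto q e M (i + 1)) (by
            intro z hz
            rw [segment_same] at hz
            rw [Set.mem_singleton_iff.1 hz]
            exact n3)
        have e4 := disj_ev (l := 𝓝[>] (0 : ℝ)) (tendsto_const_nhds (x := s.2))
          (tendsto_const_nhds (x := s.2)) (par_tendsto q e M i) (par_tendsto q e M (i + 1)) (by
            intro z hz
            rw [segment_same] at hz
            rw [Set.mem_singleton_iff.1 hz]
            exact n4)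
        filter_upwards [e1, e2, e3, e4] with δ g1 g2 g3 g4 z hz hz'
        refine Or.inr (Or.inr ⟨h1, h2, ?_, ?_, ?_⟩)
        · refine oseg_of hz (fun hh => ?_) (fun hh => ?_)
          · exact g1 _ (by rw [segment_same]; rfl) (hh ▸ hz')
          · exact g2 _ (by rw [segment_same]; rfl) (hh ▸ hz')
        · refine oseg_of hz' (fun hh => ?_) (fun hh => ?_)
          · exact g3 _ (by rw [segment_same]; rfl) (hh ▸ hz)
          · exact g4 _ (by rw [segment_same]; rfl) (hh ▸ hz)
        · rw [hd.par h1 h2]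
          unfold ip at hip ⊢
          simp only [Complex.mul_re, Complex.mul_im, Complex.ofReal_re, Complex.ofReal_im,
            zero_mul, sub_zero, add_zero]
          linear_combination (1 + δ * lam i) * hip
      · push Not at hex
        have := disj_ev (l := 𝓝[>] (0 : ℝ)) (par_tendsto q e M i) (par_tendsto q e M (i + 1))
          (tendsto_const_nhds (x := s.1)) (tendsto_const_nhds (x := s.2)) hex
        filter_upwards [this] with δ hδ z hz hz'
        exact absurd hz' (hδ z hz)
    · have h3 : i + 1 = M := by omega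
      obtain ⟨N, rfl⟩ : ∃ N, M = N + 1 := ⟨i, h3.symm⟩
      have h4 : i = N := by omega
      subst h4
      have h5 : ∀ δ : ℝ, par q e (i + 1) δ (i + 1) = q (i + 1) := par_M q e (by omega)
      have h6 := end_ev (l := 𝓝[>] (0 : ℝ)) (a := s.1) (b := s.2) (o := q (i + 1))
        (par_tendsto q e (i + 1) i) (h.ne i hi) (fun z hz hz' => by
          rw [segment_symm] at hz
          exact hL s hs z hz hz')
        (fun ho => by
          rcases h.crs s hs i hi (q (i + 1)) (right_mem_segment ℝ _ _) ho with ⟨_, h3, _⟩ |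
            ⟨_, _, h3⟩ | ⟨h3, _⟩
          · omega
          · exact h3
          · exact absurd h3 (right_notMem_oseg (h.ne i hi)))
      filter_upwards [h6] with δ hδ z hz hz'
      rw [h5, segment_symm] at hz
      exact Or.inr (Or.inl ⟨rfl, hδ z hz hz'⟩)

/-- the parallel chain and the points of `X` -/
theorem ev_vtx (h : PL O X q M) {x : ℂ} (hx : x ∈ X) {i : ℕ} (hi : i < M) :
    ∀ᶠ δ : ℝ in 𝓝[>] 0, x ∈ segment ℝ (par q e M δ i) (par q e M δ (i + 1)) →
      (x = q 0 ∧ i = 0) ∨ (x = q M ∧ i + 1 = M) := by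
  by_cases h1 : x ∈ segment ℝ (q i) (q (i + 1))
  · exact Eventually.of_forall fun _ _ => h.vtx x hx i hi h1
  · have := disj_ev (l := 𝓝[>] (0 : ℝ)) (tendsto_const_nhds (x := x)) (tendsto_const_nhds (x := x))
      (par_tendsto q e M i) (par_tendsto q e M (i + 1)) (by
        intro z hz
        rw [segment_same] at hz
        rw [Set.mem_singleton_iff.1 hz]
        exact h1)
    filter_upwards [this] with δ hδ hz
    exact absurd hz (hδ x (by rw [segment_same]; rfl))

/-- the parallel chain is simple -/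
theorem ev_simple (h : PL O X q M) {i j : ℕ} (hij : i < j) (hj : j < M) :
    ∀ᶠ δ : ℝ in 𝓝[>] 0, ∀ z ∈ segment ℝ (par q e M δ i) (par q e M δ (i + 1)),
      z ∈ segment ℝ (par q e M δ j) (par q e M δ (j + 1)) → j = i + 1 ∧ z = par q e M δ j := by
  rcases Nat.lt_or_ge (i + 1) j with h1 | h1
  · have := disj_ev (l := 𝓝[>] (0 : ℝ)) (par_tendsto q e M i) (par_tendsto q e M (i + 1))
      (par_tendsto q e M j) (par_tendsto q e M (j + 1)) (h.disj h1 hj)
    filter_upwards [this] with δ hδ z hz hz'
    exact absurd hz' (hδ z hz)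
  · have h2 : j = i + 1 := by omega
    subst h2
    have := common_ev (l := 𝓝[>] (0 : ℝ)) (par_tendsto q e M (i + 1)) (par_tendsto q e M i)
      (par_tendsto q e M (i + 2)) (h.corner hj)
    filter_upwards [this] with δ hδ z hz hz'
    rw [segment_symm] at hz
    exact ⟨rfl, hδ z hz hz'⟩

theorem cr_seg_pos {a b c d z : ℂ} (hz : z ∈ segment ℝ a b) (h1 : 0 < cr d (a - c))
    (h2 : 0 < cr d (b - c)) : 0 < cr d (z - c) := by
  obtain ⟨x, h0, h1', rfl⟩ := mem_seg.1 hz
  have e1 : a + (x : ℂ) * (b - a) - c = ((1 - x : ℝ) : ℂ) * (a - c) + (x : ℂ) * (b - c) := by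
    push_cast
    ring
  rw [e1]
  have e2 : cr d (((1 - x : ℝ) : ℂ) * (a - c) + (x : ℂ) * (b - c)) =
      (1 - x) * cr d (a - c) + x * cr d (b - c) := by
    unfold cr
    simp only [Complex.add_re, Complex.add_im, Complex.mul_re, Complex.mul_im, Complex.ofReal_re,
      Complex.ofReal_im, zero_mul, sub_zero, add_zero]
    ring
  rw [e2]
  rcases eq_or_lt_of_le h0 with h3 | h3
  · rw [← h3]
    linarith
  · have h4 : 0 < x * cr d (b - c) := mul_pos h3 h2
    have h5 : 0 ≤ (1 - x) * cr d (a - c) := mul_nonneg (by linarith) h1.le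
    linarith

theorem cr_seg_line {a b z : ℂ} (hz : z ∈ segment ℝ a b) : cr (b - a) (z - a) = 0 := by
  obtain ⟨x, _, _, rfl⟩ := mem_seg.1 hz
  unfold cr
  simp only [Complex.add_re, Complex.add_im, Complex.sub_re, Complex.sub_im, Complex.mul_re,
    Complex.mul_im, Complex.ofReal_re, Complex.ofReal_im, zero_mul, sub_zero, add_zero]
  ring

/-- the place of a point of the parallel chain: strictly on the left of the old line, up to the
ends of the chain -/
theorem left_of (hd : Dirs q e lam (M - 1)) {i : ℕ} (hi : i < M) (hM : 4 ≤ M) {δ : ℝ} (hδ : 0 < δ)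
    {z : ℂ} (hz : z ∈ segment ℝ (par q e M δ i) (par q e M δ (i + 1))) :
    (0 < cr (q (i + 1) - q i) (z - q i)) ∨ (i = 0 ∧ z = q 0) ∨ (i + 1 = M ∧ z = q M) := by
  obtain ⟨x, h0, h1, rfl⟩ := mem_seg.1 hz
  rcases Nat.eq_zero_or_pos i with hi0 | hi0
  · subst hi0
    rw [par_zero, par_mid q e δ (by omega) (by omega)]
    rcases eq_or_lt_of_le h0 with h2 | h2
    · right; left
      rw [← h2]
      simp
    · left
      have e1 : cr (q (0 + 1) - q 0) (q 0 + (x : ℂ) * (q (0 + 1) + (δ : ℂ) * e (0 + 1) - q 0) -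
          q 0) = x * (δ * cr (q (0 + 1) - q 0) (e (0 + 1))) := by
        unfold cr
        simp only [Complex.add_re, Complex.add_im, Complex.sub_re, Complex.sub_im,
          Complex.mul_re, Complex.mul_im, Complex.ofReal_re, Complex.ofReal_im, zero_mul,
          sub_zero, add_zero]
        ring
      rw [e1]
      exact mul_pos h2 (mul_pos hδ (hd.next (i := 0) (by omega)))
  · rcases Nat.lt_or_ge (i + 1) M with h2 | h2
    · left
      have e1 : par q e M δ i + (x : ℂ) * (par q e M δ (i + 1) - par q e M δ i) - q i =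
          (δ : ℂ) * e i + ((x * (1 + δ * lam i) : ℝ) : ℂ) * (q (i + 1) - q i) := by
        rw [hd.par hi0 h2, par_mid q e δ hi0 hi]
        push_cast
        ring
      rw [e1, cr_add_smul, cr_self, mul_zero, add_zero]
      have e2 : cr (q (i + 1) - q i) ((δ : ℂ) * e i) = δ * cr (q (i + 1) - q i) (e i) := by
        simp [cr]
        ring
      rw [e2]
      exact mul_pos hδ (hd.pos i hi0 (by omega))
    · have h3 : i + 1 = M := by omega
      rcases eq_or_lt_of_le h1 with h4 | h4
      · right; right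
        refine ⟨h3, ?_⟩
        rw [h4, h3, par_M q e (by omega)]
        simp
      · left
        have e1 : par q e M δ (i + 1) = q (i + 1) := by
          rw [h3]
          exact par_M q e (by omega) δ
        have e2 : par q e M δ i + (x : ℂ) * (par q e M δ (i + 1) - par q e M δ i) - q i =
            (((1 - x) * δ : ℝ) : ℂ) * e i + (x : ℂ) * (q (i + 1) - q i) := by
          rw [e1, par_mid q e δ hi0 hi]
          push_cast
          ring
        rw [e2, cr_add_smul, cr_self, mul_zero, add_zero]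
        have e3 : cr (q (i + 1) - q i) ((((1 - x) * δ : ℝ) : ℂ) * e i) =
            (1 - x) * δ * cr (q (i + 1) - q i) (e i) := by
          simp [cr]
          ring
        rw [e3]
        exact mul_pos (mul_pos (by linarith) hδ) (hd.pos i hi0 (by omega))

/-- the parallel chain and the old chain -/
theorem ev_old (h : PL O X q M) (hM : 4 ≤ M) (hd : Dirs q e lam (M - 1)) {i j : ℕ} (hi : i < M)
    (hj : j < M) :
    ∀ᶠ δ : ℝ in 𝓝[>] 0, ∀ z ∈ segment ℝ (par q e M δ i) (par q e M δ (i + 1)),
      z ∈ segment ℝ (q j) (q (j + 1)) → (i = 0 ∧ z = q 0) ∨ (i + 1 = M ∧ z = q M) := by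
  rcases lt_trichotomy i j with hij | hij | hij
  · rcases Nat.lt_or_ge (i + 1) j with h1 | h1
    · have := disj_ev (l := 𝓝[>] (0 : ℝ)) (par_tendsto q e M i) (par_tendsto q e M (i + 1))
        (tendsto_const_nhds (x := q j)) (tendsto_const_nhds (x := q (j + 1))) (h.disj h1 hj)
      filter_upwards [this] with δ hδ z hz hz'
      exact absurd hz' (hδ z hz)
    · have h2 : j = i + 1 := by omega
      subst h2
      by_cases hc : 0 < cr (q (i + 1) - q i) (q (i + 2) - q (i + 1))
      · -- left turn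
        have hlim : 0 < cr (q (i + 2) - q (i + 1)) (q i - q (i + 1)) := by
          unfold cr at hc ⊢
          simp only [Complex.sub_re, Complex.sub_im] at hc ⊢
          linarith
        have t1 : Tendsto (fun δ : ℝ => cr (q (i + 2) - q (i + 1)) (par q e M δ i - q (i + 1)))
            (𝓝[>] 0) (𝓝 (cr (q (i + 2) - q (i + 1)) (q i - q (i + 1)))) :=
          cr_cont tendsto_const_nhds ((par_tendsto q e M i).sub tendsto_const_nhds)
        filter_upwards [t1.eventually_const_lt hlim, ev_pos] with δ g1 g2 z hz hz'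
        exfalso
        have g3 : 0 < cr (q (i + 2) - q (i + 1)) (par q e M δ (i + 1) - q (i + 1)) := by
          rw [par_mid q e δ (by omega) hj]
          have e1 : cr (q (i + 2) - q (i + 1)) (q (i + 1) + (δ : ℂ) * e (i + 1) - q (i + 1)) =
              δ * cr (q (i + 2) - q (i + 1)) (e (i + 1)) := by
            simp [cr]
            ring
          rw [e1]
          exact mul_pos g2 (hd.pos (i + 1) (by omega) (by omega))
        have g4 := cr_seg_pos hz g1 g3
        have g5 := cr_seg_line hz'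
        have g6 : cr (q (i + 1 + 1) - q (i + 1)) (z - q (i + 1)) =
          cr (q (i + 2) - q (i + 1)) (z - q (i + 1)) := rfl
        linarith
      · filter_upwards [ev_pos] with δ g2 z hz hz'
        rcases left_of hd hi hM g2 hz with g | g | g
        · exfalso
          obtain ⟨x, h0, _, rfl⟩ := mem_seg.1 hz'
          have e1 : cr (q (i + 1) - q i)
              (q (i + 1) + (x : ℂ) * (q (i + 1 + 1) - q (i + 1)) - q i) =
              x * cr (q (i + 1) - q i) (q (i + 2) - q (i + 1)) := by
            unfold cr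
            simp only [Complex.add_re, Complex.add_im, Complex.sub_re, Complex.sub_im,
              Complex.mul_re, Complex.mul_im, Complex.ofReal_re, Complex.ofReal_im, zero_mul,
              sub_zero, add_zero]
            ring
          rw [e1] at g
          push Not at hc
          nlinarith [mul_nonneg h0 (neg_nonneg.2 hc)]
        · exact Or.inl g
        · exact Or.inr g
  · subst hij
    filter_upwards [ev_pos] with δ g2 z hz hz'
    rcases left_of hd hi hM g2 hz with g | g | g
    · exfalso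
      have := cr_seg_line hz'
      linarith
    · exact Or.inl g
    · exact Or.inr g
  · rcases Nat.lt_or_ge (j + 1) i with h1 | h1
    · have := disj_ev (l := 𝓝[>] (0 : ℝ)) (par_tendsto q e M i) (par_tendsto q e M (i + 1))
        (tendsto_const_nhds (x := q j)) (tendsto_const_nhds (x := q (j + 1)))
        (fun z hz hz' => h.disj h1 hi z hz' hz)
      filter_upwards [this] with δ hδ z hz hz'
      exact absurd hz' (hδ z hz)
    · have h2 : i = j + 1 := by omega
      subst h2
      by_cases hc : 0 < cr (q (j + 1) - q j) (q (j + 2) - q (j + 1))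
      · have t1 : Tendsto (fun δ : ℝ => cr (q (j + 1) - q j) (par q e M δ (j + 2) - q (j + 1)))
            (𝓝[>] 0) (𝓝 (cr (q (j + 1) - q j) (q (j + 2) - q (j + 1)))) :=
          cr_cont tendsto_const_nhds ((par_tendsto q e M (j + 2)).sub tendsto_const_nhds)
        filter_upwards [t1.eventually_const_lt hc, ev_pos] with δ g1 g2 z hz hz'
        exfalso
        have g3 : 0 < cr (q (j + 1) - q j) (par q e M δ (j + 1) - q (j + 1)) := by
          rw [par_mid q e δ (by omega) hi]
          have e1 : cr (q (j + 1) - q j) (q (j + 1) + (δ : ℂ) * e (j + 1) - q (j + 1)) =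
              δ * cr (q (j + 1) - q j) (e (j + 1)) := by
            simp [cr]
            ring
          rw [e1]
          exact mul_pos g2 (hd.next hi)
        have g4 := cr_seg_pos hz g3 g1
        have g5 := cr_seg_line hz'
        have g6 : cr (q (j + 1) - q j) (z - q (j + 1)) = cr (q (j + 1) - q j) (z - q j) := by
          unfold cr
          simp only [Complex.sub_re, Complex.sub_im]
          ring
        linarith
      · filter_upwards [ev_pos] with δ g2 z hz hz'
        rcases left_of hd hi hM g2 hz with g | g | g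
        · exfalso
          obtain ⟨x, _, h1', rfl⟩ := mem_seg.1 hz'
          have e1 : cr (q (j + 1 + 1) - q (j + 1))
              (q j + (x : ℂ) * (q (j + 1) - q j) - q (j + 1)) =
              (1 - x) * cr (q (j + 1) - q j) (q (j + 2) - q (j + 1)) := by
            unfold cr
            simp only [Complex.add_re, Complex.add_im, Complex.sub_re, Complex.sub_im,
              Complex.mul_re, Complex.mul_im, Complex.ofReal_re, Complex.ofReal_im, zero_mul,
              sub_zero, add_zero]
            ring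
          rw [e1] at g
          push Not at hc
          nlinarith [mul_nonneg (sub_nonneg.2 h1') (neg_nonneg.2 hc)]
        · exact Or.inl g
        · exact Or.inr g

/-- the parallel chain -/
theorem PL.exists_par (h : PL O X q M) (hM : 4 ≤ M) (hO : O.Finite) (hO2 : ∀ s ∈ O, s.1 ≠ s.2)
    (hX : X.Finite) (h0 : Free0 O q) (hL : FreeM O q M) (hs : Str q) :
    ∃ p : ℕ → ℂ, p 0 = q 0 ∧ p M = q M ∧ (∀ i < M, p i ≠ p (i + 1)) ∧
      (∀ i j z, i < j → j < M → z ∈ segment ℝ (p i) (p (i + 1)) →
        z ∈ segment ℝ (p j) (p (j + 1)) → j = i + 1 ∧ z = p j) ∧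
      (∀ i < M, ∀ s ∈ O, ∀ z ∈ segment ℝ (p i) (p (i + 1)), z ∈ segment ℝ s.1 s.2 →
        (i = 0 ∧ z = q 0) ∨ (i + 1 = M ∧ z = q M) ∨
          (1 ≤ i ∧ i + 1 < M ∧ z ∈ openSegment ℝ (p i) (p (i + 1)) ∧
            z ∈ openSegment ℝ s.1 s.2 ∧ ip (p (i + 1) - p i) (s.2 - s.1) = 0)) ∧
      (∀ i < M, ∀ x ∈ X, x ∈ segment ℝ (p i) (p (i + 1)) →
        (x = q 0 ∧ i = 0) ∨ (x = q M ∧ i + 1 = M)) ∧
      (∀ i < M, ∀ j < M, ∀ z ∈ segment ℝ (p i) (p (i + 1)), z ∈ segment ℝ (q j) (q (j + 1)) →
        (i = 0 ∧ z = q 0) ∨ (i + 1 = M ∧ z = q M)) := by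
  obtain ⟨e, lam, hd⟩ := h.exists_dirs (by omega) hs
  have r1 : ∀ᶠ δ : ℝ in 𝓝[>] 0, ∀ i ∈ Finset.range M, par q e M δ i ≠ par q e M δ (i + 1) := by
    rw [eventually_all_finset]
    exact fun i hi => ev_ne h (Finset.mem_range.1 hi)
  have r2 : ∀ᶠ δ : ℝ in 𝓝[>] 0, ∀ i ∈ Finset.range M, ∀ j ∈ Finset.range M, i < j →
      ∀ z ∈ segment ℝ (par q e M δ i) (par q e M δ (i + 1)),
        z ∈ segment ℝ (par q e M δ j) (par q e M δ (j + 1)) → j = i + 1 ∧ z = par q e M δ j := by
    rw [eventually_all_finset]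
    intro i hi
    rw [eventually_all_finset]
    intro j hj
    by_cases hij : i < j
    · filter_upwards [ev_simple (e := e) h hij (Finset.mem_range.1 hj)] with δ hδ _
      exact hδ
    · exact Eventually.of_forall fun _ hh => absurd hh hij
  have r3 : ∀ᶠ δ : ℝ in 𝓝[>] 0, ∀ i ∈ Finset.range M, ∀ s ∈ O,
      ∀ z ∈ segment ℝ (par q e M δ i) (par q e M δ (i + 1)), z ∈ segment ℝ s.1 s.2 →
        (i = 0 ∧ z = q 0) ∨ (i + 1 = M ∧ z = q M) ∨
        (1 ≤ i ∧ i + 1 < M ∧ z ∈ openSegment ℝ (par q e M δ i) (par q e M δ (i + 1)) ∧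
          z ∈ openSegment ℝ s.1 s.2 ∧
          ip (par q e M δ (i + 1) - par q e M δ i) (s.2 - s.1) = 0) := by
    rw [eventually_all_finset]
    intro i hi
    rw [eventually_all_finite hO]
    exact fun s hs' => ev_obst h hM hd h0 hL hs' (hO2 s hs') (Finset.mem_range.1 hi)
  have r4 : ∀ᶠ δ : ℝ in 𝓝[>] 0, ∀ i ∈ Finset.range M, ∀ x ∈ X,
      x ∈ segment ℝ (par q e M δ i) (par q e M δ (i + 1)) →
        (x = q 0 ∧ i = 0) ∨ (x = q M ∧ i + 1 = M) := by
    rw [eventually_all_finset]
    intro i hi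
    rw [eventually_all_finite hX]
    exact fun x hx => ev_vtx h hx (Finset.mem_range.1 hi)
  have r5 : ∀ᶠ δ : ℝ in 𝓝[>] 0, ∀ i ∈ Finset.range M, ∀ j ∈ Finset.range M,
      ∀ z ∈ segment ℝ (par q e M δ i) (par q e M δ (i + 1)),
        z ∈ segment ℝ (q j) (q (j + 1)) → (i = 0 ∧ z = q 0) ∨ (i + 1 = M ∧ z = q M) := by
    rw [eventually_all_finset]
    intro i hi
    rw [eventually_all_finset]
    exact fun j hj => ev_old h hM hd (Finset.mem_range.1 hi) (Finset.mem_range.1 hj)
  obtain ⟨δ, ⟨⟨⟨g1, g2⟩, g3⟩, g4⟩, g5⟩ := ((((r1.and r2).and r3).and r4).and r5).exists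
  refine ⟨par q e M δ, rfl, par_M q e (by omega) δ, fun i hi => g1 i (Finset.mem_range.2 hi),
    fun i j z hij hj h1 h2 => g2 i (Finset.mem_range.2 (by omega)) j (Finset.mem_range.2 hj) hij z
      h1 h2, fun i hi => g3 i (Finset.mem_range.2 hi), fun i hi => g4 i (Finset.mem_range.2 hi),
    fun i hi j hj => g5 i (Finset.mem_range.2 hi) j (Finset.mem_range.2 hj)⟩

end Pool.Agent.Helper7.KB
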