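import Pool.Agent.Helper7.KB.Defs
import Pool.Agent.Helper7.KB.ParMain

/-!
# A new chain beside an old edge
-/

set_option autoImplicit false

namespace Pool.Agent.Helper7.KB

open Filter Topology

variable {V : Type*} {k : ℕ} {G : SimpleGraph V} {f : V → ℂ} {m : Sym2 V → ℕ}
  {c : Sym2 V → ℕ → ℂ}

/-- where the end of an edge is on its chain -/
theorem IsDrawing.end_loc (h : IsDrawing k G f m c) {e : Sym2 V} (he : e ∈ G.edgeSet) {x : V}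
    (hx : x ∈ e) {j : ℕ} (hj : j < m e) (hz : f x ∈ segment ℝ (c e j) (c e (j + 1))) :
    (f x = c e 0 ∧ j = 0) ∨ (f x = c e (m e) ∧ j + 1 = m e) := by
  obtain ⟨y, rfl⟩ := Sym2.mem_iff_exists.1 hx
  have hxy : G.Adj x y := he
  have key0 : c s(x, y) 0 = f x → (f x = c s(x, y) 0 ∧ j = 0) := fun h0 => by
    refine ⟨h0.symm, ?_⟩
    by_contra hne
    have h1 := h.simple _ he 0 j (f x) (by omega) hj (by
      rw [← h0]; exact left_mem_segment ℝ _ _) hz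
    have h2 := h1.1
    subst h2
    exact h.ne _ he 0 (by omega) (h0.trans h1.2)
  have key1 : c s(x, y) (m s(x, y)) = f x →
      (f x = c s(x, y) (m s(x, y)) ∧ j + 1 = m s(x, y)) := fun h0 => by
    refine ⟨h0.symm, ?_⟩
    by_contra hne
    obtain ⟨N, hN⟩ : ∃ N, m s(x, y) = N + 1 := ⟨m s(x, y) - 1, by omega⟩
    rw [hN] at h0 hj hne
    have h1 := h.simple _ he j N (f x) (by omega) (by omega) hz (by
      rw [← h0]; exact right_mem_segment ℝ _ _)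
    exact h.ne _ he N (by omega) (h1.2.symm.trans h0.symm)
  rcases h.ends x y hxy with ⟨h1, _⟩ | ⟨_, h2⟩
  · exact Or.inl (key0 h1)
  · exact Or.inr (key1 h2)

/-- the chain of an edge among the other chains -/
theorem IsDrawing.pl (h : IsDrawing k G f m c) {e₀ : Sym2 V} (he₀ : e₀ ∈ G.edgeSet) (X : Set V) :
    PL {s | ∃ e ∈ G.edgeSet, e ≠ e₀ ∧ ∃ i < m e, s = (c e i, c e (i + 1))} (f '' X) (c e₀)
      (m e₀) := by
  refine ⟨h.ne e₀ he₀, h.simple e₀ he₀, ?_, ?_⟩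
  · rintro s ⟨e, he, hne, j, hj, rfl⟩ i hi z hz hz'
    rcases h.crs e₀ he₀ e he hne.symm i hi j hj z hz hz' with ⟨x, rfl⟩ | ⟨h1, h2, h3⟩
    · have hx := h.vtx e₀ he₀ i hi x hz
      have hx' := h.vtx e he j hj x hz'
      have hs : f x = c e j ∨ f x = c e (j + 1) := by
        rcases h.end_loc he hx' hj hz' with ⟨g1, rfl⟩ | ⟨g1, g2⟩
        · exact Or.inl g1
        · rw [← g2] at g1
          exact Or.inr g1
      rcases h.end_loc he₀ hx hi hz with ⟨g1, g2⟩ | ⟨g1, g2⟩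
      · exact Or.inl ⟨g1, g2, hs⟩
      · exact Or.inr (Or.inl ⟨g1, g2, hs⟩)
    · exact Or.inr (Or.inr ⟨h1, h2, by rw [← ip_eq]; exact h3⟩)
  · rintro _ ⟨x, _, rfl⟩ i hi hz
    exact h.end_loc he₀ (h.vtx e₀ he₀ i hi x hz) hi hz

/-- a new chain beside the chain of the edge `u w` -/
theorem IsDrawing.exists_path [Finite V] (h : IsDrawing k G f m c) (hk : 1 ≤ k) {u w : V}
    (v : V) (hu : v ≠ u) (hw : v ≠ w)
    (huw : G.Adj u w) (h0 : c s(u, w) 0 = f u) (hm : c s(u, w) (m s(u, w)) = f w) :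
    ∃ (p : ℕ → ℂ) (M : ℕ), 4 ≤ M ∧ M ≤ k + 3 ∧ p 0 = f w ∧ p M = f u ∧
      (∀ i < M, p i ≠ p (i + 1)) ∧
      (∀ i j z, i < j → j < M → z ∈ segment ℝ (p i) (p (i + 1)) →
        z ∈ segment ℝ (p j) (p (j + 1)) → j = i + 1 ∧ z = p j) ∧
      (∀ e ∈ G.edgeSet, ∀ i < M, ∀ j < m e, ∀ z, z ∈ segment ℝ (p i) (p (i + 1)) →
        z ∈ segment ℝ (c e j) (c e (j + 1)) → (i = 0 ∧ z = f w) ∨ (i + 1 = M ∧ z = f u) ∨
          (1 ≤ i ∧ i + 1 < M ∧ z ∈ openSegment ℝ (p i) (p (i + 1)) ∧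
            z ∈ openSegment ℝ (c e j) (c e (j + 1)) ∧
            ((p (i + 1) - p i) * (starRingEnd ℂ) (c e (j + 1) - c e j)).re = 0)) ∧
      (∀ x, x ≠ v → ∀ i < M, f x ∈ segment ℝ (p i) (p (i + 1)) →
        (x = w ∧ i = 0) ∨ (x = u ∧ i + 1 = M)) := by
  have he₀ : s(u, w) ∈ G.edgeSet := huw
  have hM1 : 1 ≤ m s(u, w) := by
    by_contra hh
    have h1 : m s(u, w) = 0 := by omega
    rw [h1, h0] at hm
    exact huw.ne (h.inj hm)
  have hO : {s | ∃ e ∈ G.edgeSet, e ≠ s(u, w) ∧ ∃ i < m e, s = (c e i, c e (i + 1))}.Finite := by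
    refine ((Set.toFinite G.edgeSet).biUnion (t := fun e =>
      (fun i => (c e i, c e (i + 1))) '' (Set.Iio (m e))) fun e _ =>
        (Set.finite_Iio (m e)).image _).subset ?_
    rintro s ⟨e, he, _, i, hi, rfl⟩
    exact Set.mem_biUnion he ⟨i, hi, rfl⟩
  have hO2 : ∀ s ∈ {s | ∃ e ∈ G.edgeSet, e ≠ s(u, w) ∧ ∃ i < m e, s = (c e i, c e (i + 1))},
      s.1 ≠ s.2 := by
    rintro s ⟨e, he, _, i, hi, rfl⟩
    exact h.ne e he i hi
  have hpl := h.pl he₀ {x | x ≠ v}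
  obtain ⟨q, M, hq, hM4, hMk, hq0, hqM, hF0, hFM, hS, hC⟩ := hpl.refine hM1 hO
  obtain ⟨p, hp0, hpM, hpn, hps, hpO, hpX, hpq⟩ := hq.exists_par hM4 hO hO2
    ((Set.toFinite _).image f) hF0 hFM hS
  rw [hm] at hq0
  rw [h0] at hqM
  refine ⟨p, M, hM4, ?_, hp0.trans hq0, hpM.trans hqM, hpn, hps, ?_, ?_⟩
  · have := h.len _ he₀
    omega
  · intro e he i hi j hj z hz hz'
    by_cases hee : e = s(u, w)
    · subst hee
      obtain ⟨j', hj', hz''⟩ := hC j hj z hz'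
      rcases hpq i hi j' hj' z hz hz'' with ⟨g1, g2⟩ | ⟨g1, g2⟩
      · exact Or.inl ⟨g1, g2.trans hq0⟩
      · exact Or.inr (Or.inl ⟨g1, g2.trans hqM⟩)
    · rcases hpO i hi (c e j, c e (j + 1)) ⟨e, he, hee, j, hj, rfl⟩ z hz hz' with
        ⟨g1, g2⟩ | ⟨g1, g2⟩ | ⟨g1, g2, g3, g4, g5⟩
      · exact Or.inl ⟨g1, g2.trans hq0⟩
      · exact Or.inr (Or.inl ⟨g1, g2.trans hqM⟩)
      · exact Or.inr (Or.inr ⟨g1, g2, g3, g4, by rw [ip_eq]; exact g5⟩)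
  · intro x hx i hi hz
    rcases hpX i hi (f x) ⟨x, hx, rfl⟩ hz with ⟨g1, g2⟩ | ⟨g1, g2⟩
    · exact Or.inl ⟨h.inj (g1.trans hq0), g2⟩
    · exact Or.inr ⟨h.inj (g1.trans hqM), g2⟩

end Pool.Agent.Helper7.KB
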