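import Pool.Agent.Helper7.KB.Near

/-!
# The refined chain: at least four segments, the first and the last one free
-/

set_option autoImplicit false

namespace Pool.Agent.Helper7.KB

open Filter Topology

variable {O : Set (ℂ × ℂ)} {X : Set ℂ} {q : ℕ → ℂ} {M : ℕ}

/-- every point of the first chain is on the second one -/
def Cov (q : ℕ → ℂ) (M : ℕ) (q' : ℕ → ℂ) (M' : ℕ) : Prop :=
  ∀ i < M, ∀ z ∈ segment ℝ (q i) (q (i + 1)), ∃ j < M', z ∈ segment ℝ (q' j) (q' (j + 1))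

theorem Cov.trans {q₁ q₂ q₃ : ℕ → ℂ} {M₁ M₂ M₃ : ℕ} (h : Cov q₁ M₁ q₂ M₂)
    (h' : Cov q₂ M₂ q₃ M₃) : Cov q₁ M₁ q₃ M₃ := fun i hi z hz => by
  obtain ⟨j, hj, hz'⟩ := h i hi z hz
  exact h' j hj z hz'

theorem cov_rev (q : ℕ → ℂ) (M : ℕ) : Cov q M (fun i => q (M - i)) M := fun i hi z hz => by
  refine ⟨M - (i + 1), by omega, ?_⟩
  have e1 : M - (M - (i + 1)) = i + 1 := by omega
  have e2 : M - (M - (i + 1) + 1) = i := by omega
  simp only [e1, e2]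
  rw [segment_symm]
  exact hz

theorem cov_ins {t : ℂ} (ht : t ∈ segment ℝ (q 0) (q 1)) (M : ℕ) :
    Cov q M (ins q t) (M + 1) := fun i hi z hz => by
  match i with
  | 0 =>
    rcases seg_split ht hz with h | h
    · exact ⟨0, by omega, h⟩
    · exact ⟨1, by omega, h⟩
  | i + 1 => exact ⟨i + 2, by omega, hz⟩

/-- the first segment is free -/
def Free0 (O : Set (ℂ × ℂ)) (q : ℕ → ℂ) : Prop :=
  ∀ s ∈ O, ∀ z ∈ segment ℝ (q 0) (q 1), z ∈ segment ℝ s.1 s.2 → z = q 0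

/-- the last segment is free -/
def FreeM (O : Set (ℂ × ℂ)) (q : ℕ → ℂ) (M : ℕ) : Prop :=
  ∀ s ∈ O, ∀ z ∈ segment ℝ (q (M - 1)) (q M), z ∈ segment ℝ s.1 s.2 → z = q M

theorem Free0.rev (hM : 1 ≤ M) (h : Free0 O q) : FreeM O (fun i => q (M - i)) M :=
  fun s hs z hz hz' => by
  have e1 : M - (M - 1) = 1 := by omega
  simp only [e1, Nat.sub_self] at hz ⊢
  rw [segment_symm] at hz
  exact h s hs z hz hz'

theorem FreeM.ins (hM : 2 ≤ M) (h : FreeM O q M) (t : ℂ) : FreeM O (ins q t) (M + 1) := by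
  obtain ⟨N, rfl⟩ : ∃ N, M = N + 2 := ⟨M - 2, by omega⟩
  exact h

/-- the corner number `1` is no corner -/
def Str (q : ℕ → ℂ) : Prop := ∃ μ : ℝ, 0 < μ ∧ q 1 - q 0 = (μ : ℂ) * (q 2 - q 1)

theorem str_ins {t : ℂ} (ht : t ∈ openSegment ℝ (q 0) (q 1)) : Str (ins q t) := by
  obtain ⟨x, hx0, hx1, hx⟩ := mem_oseg.1 ht
  have h1 : 0 < 1 - x := by linarith
  refine ⟨x / (1 - x), by positivity, ?_⟩
  show t - q 0 = _ * (q 1 - t)
  have : (1 - x : ℂ) ≠ 0 := by exact_mod_cast h1.ne'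
  rw [hx]
  push_cast
  field_simp
  ring

theorem PL.step (h : PL O X q M) (hM : 1 ≤ M) (hO : O.Finite) :
    ∃ q', PL O X q' (M + 1) ∧ Free0 O q' ∧ q' 0 = q 0 ∧ q' (M + 1) = q M ∧ Str q' ∧
      Cov q M q' (M + 1) ∧ (2 ≤ M → FreeM O q M → FreeM O q' (M + 1)) := by
  obtain ⟨t, ht, hf⟩ := h.near hM hO
  have h01 : q 0 ≠ q 1 := h.ne 0 (by omega)
  have ht0 : t ≠ q 0 := fun e => left_notMem_oseg h01 (e ▸ ht)
  have hnot : ∀ s ∈ O, t ∉ segment ℝ s.1 s.2 := fun s hs hts =>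
    ht0 (hf s hs t (right_mem_segment ℝ _ _) hts)
  refine ⟨ins q t, h.insert hM ht hnot, hf, rfl, ?_, str_ins ht,
    cov_ins (openSegment_subset_segment ℝ _ _ ht) M, fun h2 h3 => h3.ins h2 t⟩
  obtain ⟨N, rfl⟩ : ∃ N, M = N + 1 := ⟨M - 1, by omega⟩
  rfl

theorem PL.refine (h : PL O X q M) (hM : 1 ≤ M) (hO : O.Finite) :
    ∃ (q' : ℕ → ℂ) (M' : ℕ), PL O X q' M' ∧ 4 ≤ M' ∧ (M' ≤ M + 2 ∨ M' ≤ 4) ∧ q' 0 = q M ∧
      q' M' = q 0 ∧ Free0 O q' ∧ FreeM O q' M' ∧ Str q' ∧ Cov q M q' M' := by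
  obtain ⟨q1, p1, f1, z1, e1, _, c1, _⟩ := h.step hM hO
  have p2 := p1.reverse
  have c2 := cov_rev q1 (M + 1)
  have f2 := f1.rev (M := M + 1) (by omega)
  obtain ⟨q3, p3, f3, z3, e3, s3, c3, k3⟩ := p2.step (by omega) hO
  have f3' := k3 (by omega) f2
  have hz : q3 0 = q M := by
    rw [z3]
    show q1 (M + 1 - 0) = q M
    rw [Nat.sub_zero, e1]
  have he : q3 (M + 1 + 1) = q 0 := by
    rw [e3]
    show q1 (M + 1 - (M + 1)) = q 0
    rw [Nat.sub_self, z1]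
  by_cases h2 : 2 ≤ M
  · exact ⟨q3, M + 1 + 1, p3, by omega, Or.inl (by omega), hz, he, f3, f3', s3,
      (c1.trans c2).trans c3⟩
  · obtain ⟨q4, p4, f4, z4, e4, s4, c4, k4⟩ := p3.step (by omega) hO
    exact ⟨q4, M + 1 + 1 + 1, p4, by omega, Or.inr (by omega), z4.trans hz, e4.trans he, f4,
      k4 (by omega) f3', s4, ((c1.trans c2).trans c3).trans c4⟩

end Pool.Agent.Helper7.KB
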